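import Pool.Agent.Lib.MP_af3a4a_an.P1.CHK.SWP.Defs

/-!
# Sweep claims: the box of `μ` (council 2, helper62)
-/

set_option autoImplicit false

namespace Pool.Agent.Lib.MP_af3a4a_an.P1.CHK.SWP

open Pool.Agent.Lib.MP_af3a4a_an.P1.CHK.BOX
open Pool.Agent.Lib.MP_af3a4a_an.P1.CHK.Curve (mr)

theorem sub_cast_le (a b : ℕ) : (a : ℝ) - b ≤ ((a - b : ℕ) : ℝ) := by
  rcases le_total b a with h | h
  · rw [Nat.cast_sub h]
  · rw [Nat.sub_eq_zero_of_le h]
    have : (a : ℝ) ≤ b := by exact_mod_cast h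
    push_cast
    linarith only [this]

/-- the squares of the positive parts -/
theorem sq_parts {x : ℝ} {a b c e : ℕ} (h1 : (a : ℝ) - b ≤ x) (h2 : x ≤ (c : ℝ) - e) :
    ((a - b : ℕ) : ℝ) * ((a - b : ℕ) : ℝ) + ((e - c : ℕ) : ℝ) * ((e - c : ℕ) : ℝ) ≤ x ^ 2 := by
  rcases le_total b a with h | h
  · have h' : (b : ℝ) ≤ a := by exact_mod_cast h
    rcases Nat.lt_or_ge c e with h3 | h3
    · have h3' : (c : ℝ) < e := by exact_mod_cast h3
      linarith only [h1, h2, h', h3']
    · rw [Nat.sub_eq_zero_of_le h3, Nat.cast_sub h]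
      push_cast
      nlinarith only [h1, h']
  · rw [Nat.sub_eq_zero_of_le h]
    rcases le_total c e with h3 | h3
    · have h3' : (c : ℝ) ≤ e := by exact_mod_cast h3
      rw [Nat.cast_sub h3]
      push_cast
      nlinarith only [h2, h3']
    · rw [Nat.sub_eq_zero_of_le h3]
      push_cast
      linarith only [sq_nonneg x]

theorem geo_sound {N D K r0 r1 h0 h1 R0 R1 lp ln mp mn s0 s1 c1 : ℕ}
    (h : geoOK N D K r0 r1 h0 h1 R0 R1 lp ln mp mn s0 s1 c1 = true) {R r γ : ℝ}
    (hR0p : 0 < R0) (hR0 : (R0 : ℝ) / 1024 ≤ R) (hR1 : R ≤ (R1 : ℝ) / 1024) (hr1' : r ≤ 1)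
    (hr0 : (r0 : ℝ) / 4096 ≤ r) (hr1 : r ≤ (r1 : ℝ) / 4096) (hg0 : (h0 : ℝ) / 64 ≤ γ)
    (hg1 : γ ≤ (h1 : ℝ) / 64) {m1 m2 : ℝ} (e1 : m1 * K = 16 * N * (r * Real.cos γ) - D / R)
    (e2 : m2 * K = 16 * N * (r * Real.sin γ)) :
    mr lp ln ≤ m1 ∧ m1 ≤ mr mp mn ∧ (s0 : ℝ) / 1099511627776 ≤ m2 ∧
      m2 ≤ (s1 : ℝ) / 1099511627776 ∧ 1 - (m1 ^ 2 + m2 ^ 2) ≤ (c1 : ℝ) / 1099511627776 := by
  unfold geoOK at h
  simp only [Bool.and_eq_true, Bool.or_eq_true, Nat.ble_eq] at h
  obtain ⟨k1, k2, k3, k4, k5, k6, k7⟩ := h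
  have hrp : 0 ≤ r := le_trans (by positivity) hr0
  have a1 := mF_spec k1 hr0 hr1 hr1' hg0 hg1
  have a2 := lF_spec k1 hr0 hr1 hr1' hg0 hg1
  have a3 := s0F_spec k1 hr0 hr1 hr1' hg0 hg1
  have a4 := s1F_spec k1 hr0 hr1 hr1' hg0 hg1
  generalize mpF r0 r1 h0 = mp' at a1 k4 k7
  generalize mnF r0 r1 h0 = mn' at a1 k4 k7
  generalize lpF r0 r1 h1 = lp' at a2 k3
  generalize lnF r0 r1 h1 = ln' at a2 k3
  generalize s0F r0 h0 h1 = s0' at a3 k5
  generalize s1F r1 h0 h1 = s1' at a4 k6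
  have e40 : (2 : ℝ) ^ 40 = 1099511627776 := by norm_num
  rw [e40] at a1 a2 a3 a4
  obtain ⟨x, hx⟩ : ∃ x, x = r * Real.cos γ := ⟨_, rfl⟩
  obtain ⟨y, hy⟩ : ∃ y, y = r * Real.sin γ := ⟨_, rfl⟩
  have hxy : x ^ 2 + y ^ 2 = r ^ 2 := by
    rw [hx, hy]
    have := Real.sin_sq_add_cos_sq γ
    calc (r * Real.cos γ) ^ 2 + (r * Real.sin γ) ^ 2 =
        r ^ 2 * (Real.sin γ ^ 2 + Real.cos γ ^ 2) := by ring
      _ = _ := by rw [this, mul_one]
  rw [← hx] at a1 a2 e1
  rw [← hy] at a3 a4 e2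
  have a1' : 1099511627776 * x ≤ (mp' : ℝ) - mn' := by
    rw [← sub_div, le_div_iff₀ (by norm_num)] at a1; linarith only [a1]
  have a2' : (lp' : ℝ) - ln' ≤ 1099511627776 * x := by
    rw [← sub_div, div_le_iff₀ (by norm_num)] at a2; linarith only [a2]
  have a3' : (s0' : ℝ) ≤ 1099511627776 * y := by
    rw [div_le_iff₀ (by norm_num)] at a3; linarith only [a3]
  have a4' : 1099511627776 * y ≤ (s1' : ℝ) := by
    rw [le_div_iff₀ (by norm_num)] at a4; linarith only [a4]
  have hR0r : (0 : ℝ) < R0 := by exact_mod_cast hR0p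
  have hRp : 0 < R := lt_of_lt_of_le (by positivity) hR0
  have hR1r : (0 : ℝ) < R1 := by
    have : 0 < (R1 : ℝ) / 1024 := lt_of_lt_of_le hRp hR1
    by_contra hc
    have : (R1 : ℝ) / 1024 ≤ 0 := div_nonpos_of_nonpos_of_nonneg (not_lt.1 hc) (by norm_num)
    linarith only [hR1, hRp, hc]
  have hKr : (0 : ℝ) < K := by exact_mod_cast (show 0 < K by omega)
  have hN0 : (0 : ℝ) ≤ N := Nat.cast_nonneg N
  have hD0 : (0 : ℝ) ≤ D := Nat.cast_nonneg D
  -- `1/R`
  obtain ⟨i, hi⟩ : ∃ i, i = 1 / R := ⟨_, rfl⟩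
  have hip : 0 < i := by rw [hi]; positivity
  have hiR : i * R = 1 := by rw [hi]; field_simp
  have i1 : i * R0 ≤ 1024 := by
    have h1 : i * (R0 / 1024) ≤ i * R := mul_le_mul_of_nonneg_left hR0 hip.le
    rw [hiR] at h1
    linarith only [h1]
  have i2 : 1024 ≤ i * R1 := by
    have h1 : i * R ≤ i * (R1 / 1024) := mul_le_mul_of_nonneg_left hR1 hip.le
    rw [hiR] at h1
    linarith only [h1]
  have hDR : (D : ℝ) / R = D * i := by rw [hi]; ring
  rw [hDR] at e1
  have q3 : (K : ℝ) * lp * R0 + D * 1125899906842624 + 16 * N * ln' * R0 ≤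
      16 * N * lp' * R0 + K * ln * R0 := by exact_mod_cast k3
  have q4 : (16 : ℝ) * N * mp' * R1 + K * mn * R1 ≤
      16 * N * mn' * R1 + K * mp * R1 + D * 1125899906842624 := by exact_mod_cast k4
  have q5 : (s0 : ℝ) * K ≤ 16 * N * s0' := by exact_mod_cast k5
  have q6 : (16 : ℝ) * N * s1' ≤ s1 * K := by exact_mod_cast k6
  have b1 : (lp : ℝ) - ln ≤ 1099511627776 * m1 := by
    have h1 : ((lp : ℝ) - ln) * (K * R0) ≤ 1099511627776 * m1 * (K * R0) := by
      have h2 : 1099511627776 * m1 * (K * R0) =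
          16 * N * R0 * (1099511627776 * x) - 1099511627776 * D * (i * R0) := by
        calc 1099511627776 * m1 * (K * R0) = 1099511627776 * (m1 * K) * R0 := by ring
          _ = _ := by rw [e1]; ring
      rw [h2]
      have h3 := mul_le_mul_of_nonneg_left a2' (show (0 : ℝ) ≤ 16 * N * R0 by positivity)
      have h4 := mul_le_mul_of_nonneg_left i1 (show (0 : ℝ) ≤ 1099511627776 * D by positivity)
      linarith only [q3, h3, h4]
    exact le_of_mul_le_mul_right h1 (by positivity)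
  have b2 : 1099511627776 * m1 ≤ (mp : ℝ) - mn := by
    have h1 : 1099511627776 * m1 * (K * R1) ≤ ((mp : ℝ) - mn) * (K * R1) := by
      have h2 : 1099511627776 * m1 * (K * R1) =
          16 * N * R1 * (1099511627776 * x) - 1099511627776 * D * (i * R1) := by
        calc 1099511627776 * m1 * (K * R1) = 1099511627776 * (m1 * K) * R1 := by ring
          _ = _ := by rw [e1]; ring
      rw [h2]
      have h3 := mul_le_mul_of_nonneg_left a1' (show (0 : ℝ) ≤ 16 * N * R1 by positivity)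
      have h4 := mul_le_mul_of_nonneg_left i2 (show (0 : ℝ) ≤ 1099511627776 * D by positivity)
      linarith only [q4, h3, h4]
    exact le_of_mul_le_mul_right h1 (by positivity)
  have b3 : (s0 : ℝ) ≤ 1099511627776 * m2 := by
    have h1 : (s0 : ℝ) * K ≤ 1099511627776 * m2 * K := by
      rw [mul_assoc, e2]
      have h3 := mul_le_mul_of_nonneg_left a3' (show (0 : ℝ) ≤ 16 * N by positivity)
      linarith only [q5, h3]
    exact le_of_mul_le_mul_right h1 hKr
  have b4 : 1099511627776 * m2 ≤ (s1 : ℝ) := by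
    have h1 : 1099511627776 * m2 * K ≤ (s1 : ℝ) * K := by
      rw [mul_assoc, e2]
      have h3 := mul_le_mul_of_nonneg_left a4' (show (0 : ℝ) ≤ 16 * N by positivity)
      linarith only [q6, h3]
    exact le_of_mul_le_mul_right h1 hKr
  refine ⟨?_, ?_, ?_, ?_, ?_⟩
  · unfold mr
    rw [div_le_iff₀ (by norm_num)]
    linarith only [b1]
  · unfold mr
    rw [le_div_iff₀ (by norm_num)]
    linarith only [b2]
  · rw [div_le_iff₀ (by norm_num)]
    linarith only [b3]
  · rw [le_div_iff₀ (by norm_num)]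
    linarith only [b4]
  · rw [le_div_iff₀ (by norm_num)]
    rcases k7 with k7 | k7
    · have q7 : (1208925819614629174706176 : ℝ) ≤ c1 * 1099511627776 + s0 * s0 +
          ((lp - ln : ℕ) : ℝ) * ((lp - ln : ℕ) : ℝ) +
          ((mn - mp : ℕ) : ℝ) * ((mn - mp : ℕ) : ℝ) := by exact_mod_cast k7
      have h1 := sq_parts b1 b2
      have h2 : (s0 : ℝ) * s0 ≤ (1099511627776 * m2) ^ 2 := by
        rw [sq]
        exact mul_self_le_mul_self (Nat.cast_nonneg _) b3
      have h3 : (1099511627776 * m1) ^ 2 = 1208925819614629174706176 * m1 ^ 2 := by ring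
      have h4 : (1099511627776 * m2) ^ 2 = 1208925819614629174706176 * m2 ^ 2 := by ring
      rw [h3] at h1
      rw [h4] at h2
      linarith only [q7, h1, h2]
    · have q7 : (1099511627776 : ℝ) * K * K * R0 * R1 * R1 + 32768 * N * D * mp' * R1 * R1 ≤
          c1 * K * K * R0 * R1 * R1 + 16777216 * N * N * r0 * r0 * R0 * R1 * R1 +
            1152921504606846976 * D * D * R0 := by exact_mod_cast k7
      have h1 : (1 - (m1 ^ 2 + m2 ^ 2)) * 1099511627776 * (K * K * R0 * R1 * R1) ≤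
          c1 * (K * K * R0 * R1 * R1) := by
        have e3 : (m1 ^ 2 + m2 ^ 2) * (K * K) =
            256 * N * N * r ^ 2 - 32 * N * x * (D * i) + (D * i) ^ 2 := by
          calc (m1 ^ 2 + m2 ^ 2) * (K * K) = (m1 * K) ^ 2 + (m2 * K) ^ 2 := by ring
            _ = 256 * N * N * (x ^ 2 + y ^ 2) - 32 * N * x * (D * i) + (D * i) ^ 2 := by
              rw [e1, e2]; ring
            _ = _ := by rw [hxy]
        have e4 : (1 - (m1 ^ 2 + m2 ^ 2)) * 1099511627776 * (K * K * R0 * R1 * R1) =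
            1099511627776 * K * K * R0 * R1 * R1 -
              1099511627776 * ((m1 ^ 2 + m2 ^ 2) * (K * K)) * (R0 * R1 * R1) := by ring
        rw [e4, e3]
        have p1 : (r0 : ℝ) * r0 ≤ 16777216 * r ^ 2 := by
          have h2 : (r0 : ℝ) ≤ 4096 * r := by linarith only [hr0]
          calc (r0 : ℝ) * r0 ≤ (4096 * r) * (4096 * r) :=
                mul_self_le_mul_self (Nat.cast_nonneg _) h2
            _ = _ := by ring
        have p2 : 16777216 * N * N * r0 * r0 * R0 * R1 * R1 ≤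
            1099511627776 * (256 * N * N * r ^ 2) * (R0 * R1 * R1) := by
          have h2 := mul_le_mul_of_nonneg_left p1
            (show (0 : ℝ) ≤ 16777216 * N * N * (R0 * R1 * R1) by positivity)
          linarith only [h2]
        have p3 : 1099511627776 * (32 * N * x * (D * i)) * (R0 * R1 * R1) ≤
            32768 * N * D * mp' * R1 * R1 := by
          have h2 : 1099511627776 * x ≤ (mp' : ℝ) := by
            have : (0 : ℝ) ≤ mn' := Nat.cast_nonneg _
            linarith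
          have h3 : (1099511627776 * x) * (i * R0) ≤ mp' * 1024 := by
            calc (1099511627776 * x) * (i * R0) ≤ mp' * (i * R0) :=
                  mul_le_mul_of_nonneg_right h2 (by positivity)
              _ ≤ mp' * 1024 := mul_le_mul_of_nonneg_left i1 (Nat.cast_nonneg _)
          have h4 := mul_le_mul_of_nonneg_left h3
            (show (0 : ℝ) ≤ 32 * N * D * (R1 * R1) by positivity)
          linarith only [h4]
        have p4 : 1152921504606846976 * D * D * R0 ≤
            1099511627776 * (D * i) ^ 2 * (R0 * R1 * R1) := by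
          have h2 : (1024 : ℝ) * 1024 ≤ (i * R1) * (i * R1) :=
            mul_self_le_mul_self (by norm_num) i2
          have h3 := mul_le_mul_of_nonneg_left h2
            (show (0 : ℝ) ≤ 1099511627776 * (D * D * R0) by positivity)
          linarith only [h3]
        linarith only [q7, p2, p3, p4]
      exact le_of_mul_le_mul_right h1 (by positivity)

end Pool.Agent.Lib.MP_af3a4a_an.P1.CHK.SWP
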