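import Pool.Agent.Lib.MP_af3a4a_an.P1.CHK.SWP.Wt
import Pool.Agent.Lib.MP_af3a4a_an.P1.CHK.SWP.Geo
import Pool.Agent.Lib.MP_af3a4a_an.P1.CHK.CurveK.Leaf
import Pool.Agent.Lib.MP_af3a4a_an.P1.H74.Cost2

/-!
# Sweep claims: soundness (council 2, helper62)
-/

set_option autoImplicit false

namespace Pool.Agent.Lib.MP_af3a4a_an.P1.CHK.SWP

open MeasureTheory intervalIntegral ComplexConjugate
open Pool.Agent.Lib.MP_af3a4a_an.SV (uu av sq EE)
open Pool.Agent.Lib.MP_af3a4a_an.P1.H80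
open Pool.Agent.Lib.MP_af3a4a_an.P1.CHK.H80
open Pool.Agent.Lib.MP_af3a4a_an.P1.H32
open Pool.Agent.Lib.MP_af3a4a_an.P1.CHK.Arith (ev ev_eq)
open Pool.Agent.Lib.MP_af3a4a_an.P1.CHK.Curve (mr bi_and)
open Pool.Agent.Lib.MP_af3a4a_an.P1.CHK.BOX
open Pool.Agent.Lib.MP_af3a4a_an.P1.CHK.CurveK
open Pool.Agent.Lib.MP_af3a4a_an.P1.H11 (el Wf xn GK CombH unitS comb_unit hr hr_int RepR_norm_GK
  qq_eq_Wf)

/-- the meaning of a claim -/
def SwpP (N : ℕ) (c : Sc) : Prop :=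
  ∀ (z w : Fin N → ℂ) (R : ℝ) (σ : Fin N → ℂ), Cfg2 N z w R σ → ∀ r γ : ℝ,
    av (uu w) = (r : ℂ) * Complex.exp ((γ : ℂ) * Complex.I) → 0 ≤ γ → γ ≤ Real.pi / 2 →
    (c.r0 : ℝ) / 4096 ≤ r → r ≤ (c.r1 : ℝ) / 4096 → (c.h0 : ℝ) / 64 ≤ γ → γ ≤ (c.h1 : ℝ) / 64 →
    (c.R0 : ℝ) / 1024 ≤ R → R ≤ (c.R1 : ℝ) / 1024 →
    (c.v : ℝ) / 2 ^ 24 ≤ ((N : ℝ) + 1) * ‖∫ x in (0 : ℝ)..1, qq (uu w) x‖

/-! ### the cost -/

theorem om_le_one {R : ℝ} (hR : 1 < R) {u : ℂ} (hu : ‖u‖ ≤ 1) : om R u ≤ 1 := by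
  have h1 : ‖(R : ℂ) * u - 1‖ ≤ ‖(R : ℂ) - u‖ := by
    refine (abs_le_of_sq_le_sq' ?_ (norm_nonneg _)).2
    rw [← Complex.normSq_eq_norm_sq, ← Complex.normSq_eq_norm_sq, Complex.normSq_apply,
      Complex.normSq_apply]
    simp only [Complex.sub_re, Complex.sub_im, Complex.mul_re, Complex.mul_im, Complex.ofReal_re,
      Complex.ofReal_im, Complex.one_re, Complex.one_im]
    have h2 : u.re * u.re + u.im * u.im ≤ 1 := by
      have h3 : Complex.normSq u ≤ 1 := by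
        rw [Complex.normSq_eq_norm_sq]
        exact pow_le_one₀ (norm_nonneg _) hu
      rwa [Complex.normSq_apply] at h3
    nlinarith [mul_nonneg (show (0 : ℝ) ≤ R ^ 2 - 1 by nlinarith)
      (show (0 : ℝ) ≤ 1 - (u.re * u.re + u.im * u.im) by linarith)]
  unfold om
  rcases eq_or_lt_of_le (add_nonneg (norm_nonneg ((R : ℂ) - u)) (norm_nonneg ((R : ℂ) * u - 1)))
    with h | h
  · rw [← h, div_zero]
    norm_num
  · rw [div_le_one h]
    linarith

theorem cost_sound {N D K r0 r1 h0 h1 R0 : ℕ} (hKD : K + D = 16 * N)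
    (h : costOK N D K r0 r1 h0 R0 = true) (hh1 : h1 ≤ 201) {z w : Fin N → ℂ} {R : ℝ}
    {σ : Fin N → ℂ} (hC : Cfg2 N z w R σ) {r γ : ℝ}
    (hm : av (uu w) = (r : ℂ) * Complex.exp ((γ : ℂ) * Complex.I)) (hγ : 0 ≤ γ)
    (hγ2 : γ ≤ Real.pi / 2) (hr0 : (r0 : ℝ) / 4096 ≤ r) (hr1 : r ≤ (r1 : ℝ) / 4096)
    (hg0 : (h0 : ℝ) / 64 ≤ γ) (hg1 : γ ≤ (h1 : ℝ) / 64) (hR : 1 < R)
    (hR0 : (R0 : ℝ) / 1024 ≤ R) : ∑ k, om R (uu w k) ≤ (K : ℝ) / 16 := by
  unfold costOK at h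
  rw [Bool.or_eq_true] at h
  have hu : ∀ k, ‖uu w k‖ ≤ 1 := fun k => hC.u_le k
  rcases h with h | h
  · have hD : D = 0 := Nat.eq_of_beq_eq_true h
    have h1 : ∑ k, om R (uu w k) ≤ ∑ _k : Fin N, (1 : ℝ) :=
      Finset.sum_le_sum fun k _ => om_le_one hR (hu k)
    refine h1.trans (le_of_eq ?_)
    have h2 : (K : ℝ) = 16 * N := by
      have : K = 16 * N := by omega
      rw [this]
      push_cast
      ring
    rw [h2]
    simp
  · simp only [Bool.and_eq_true, Nat.ble_eq] at h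
    obtain ⟨k1, k2⟩ := h
    have hrp : 0 ≤ r := le_trans (div_nonneg (Nat.cast_nonneg _) (by norm_num)) hr0
    have hr' : r ≤ 1 := by
      have h3 := hC.av_le
      rwa [hm, norm_mul, Complex.norm_exp_ofReal_mul_I, mul_one, Complex.norm_real,
        Real.norm_of_nonneg hrp] at h3
    have a1 := mF_spec hh1 hr0 hr1 hr' hg0 hg1
    have hk1 : (1946 : ℝ) ≤ R0 := by exact_mod_cast k1
    have h19 : 19 / 10 ≤ R := by linarith
    refine (H74.Cost2.cost_sum2 hC h19).trans ?_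
    have hre : (av (uu w)).re = r * Real.cos γ := by
      rw [hm, Complex.re_ofReal_mul, Complex.exp_ofReal_mul_I_re]
    rw [hre]
    obtain ⟨x, hx⟩ : ∃ x, x = r * Real.cos γ := ⟨_, rfl⟩
    have hx0 : 0 ≤ x := by
      rw [hx]
      exact mul_nonneg hrp (Real.cos_nonneg_of_neg_pi_div_two_le_of_le (by linarith) hγ2)
    rw [← hx] at a1 ⊢
    generalize mpF r0 r1 h0 = M at a1 k2
    have a2 : 1099511627776 * x ≤ M := by
      have e40 : (2 : ℝ) ^ 40 = 1099511627776 := by norm_num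
      rw [e40, ← sub_div, le_div_iff₀ (by norm_num)] at a1
      have : (0 : ℝ) ≤ (mnF r0 r1 h0 : ℕ) := Nat.cast_nonneg _
      linarith
    -- monotone in `R`
    obtain ⟨ρ, hρ⟩ : ∃ ρ : ℝ, ρ = (R0 : ℝ) / 1024 := ⟨_, rfl⟩
    rw [← hρ] at hR0
    have hρ1 : 1 < ρ := by rw [hρ, lt_div_iff₀ (by norm_num)]; linarith
    have hb : 0 < R ^ 2 - 1 := by nlinarith
    have hb' : 0 < ρ ^ 2 - 1 := by nlinarith
    have hmono : (R - 1 + R * x) / (R ^ 2 - 1) ≤ (ρ - 1 + ρ * x) / (ρ ^ 2 - 1) := by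
      rw [div_le_div_iff₀ hb hb']
      have e : (ρ - 1 + ρ * x) * (R ^ 2 - 1) - (R - 1 + R * x) * (ρ ^ 2 - 1) =
          (R - ρ) * ((ρ - 1) * (R - 1) + x * (1 + R * ρ)) := by ring
      have h4 : 0 ≤ (R - ρ) * ((ρ - 1) * (R - 1) + x * (1 + R * ρ)) :=
        mul_nonneg (by linarith) (add_nonneg (mul_nonneg (by linarith) (by linarith))
          (mul_nonneg hx0 (by nlinarith)))
      linarith
    have hN0 : (0 : ℝ) ≤ N := Nat.cast_nonneg N
    refine (mul_le_mul_of_nonneg_left (add_le_add_left hmono _) hN0).trans ?_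
    have hq : (0 : ℝ) < (R0 : ℝ) * R0 - 1048576 := by nlinarith
    have q2 : (900719925474099200 : ℝ) * N * (R0 - 1024) + 819200 * N * R0 * M +
        16 * N * (R0 * R0 - 1048576) * 1099511627776 ≤
        50 * K * (R0 * R0 - 1048576) * 1099511627776 := by
      have h5 : 1024 * 1024 ≤ R0 * R0 := Nat.mul_le_mul (by omega) (by omega)
      have h6 : 1024 ≤ R0 := by omega
      have h7 : ((900719925474099200 * N * (R0 - 1024) + 819200 * N * R0 * M +
        16 * N * (R0 * R0 - 1048576) * 1099511627776 : ℕ) : ℝ) ≤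
        ((50 * K * (R0 * R0 - 1048576) * 1099511627776 : ℕ) : ℝ) := by exact_mod_cast k2
      rw [show 1024 * 1024 = 1048576 by norm_num] at h5
      push_cast [Nat.cast_sub h5, Nat.cast_sub h6] at h7
      exact h7
    have e2 : (ρ - 1 + ρ * x) / (ρ ^ 2 - 1) =
        1024 * (R0 - 1024 + R0 * x) / (R0 * R0 - 1048576) := by
      rw [hρ] at hb' ⊢
      rw [div_eq_div_iff hb'.ne' hq.ne']
      ring
    rw [e2, ← sub_nonneg]
    obtain ⟨q, hqe⟩ : ∃ q : ℝ, q = (R0 : ℝ) * R0 - 1048576 := ⟨_, rfl⟩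
    rw [← hqe] at hq q2 ⊢
    have e3 : (K : ℝ) / 16 - N * (1024 * (R0 - 1024 + R0 * x) / q + 1 / 50) =
        (50 * K * q - 819200 * N * (R0 - 1024 + R0 * x) - 16 * N * q) / (800 * q) := by
      have hq' := hq.ne'
      field_simp
      ring
    rw [e3]
    apply div_nonneg _ (by positivity)
    have h8 := mul_le_mul_of_nonneg_left a2
      (show (0 : ℝ) ≤ 819200 * (N * R0 : ℝ) from mul_nonneg (by norm_num)
        (mul_nonneg hN0 (Nat.cast_nonneg _)))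
    have h9 : (0 : ℝ) ≤ 1099511627776 * (50 * K * q - 819200 * N * (R0 - 1024 + R0 * x) -
        16 * N * q) := by linarith
    exact nonneg_of_mul_nonneg_right h9 (by norm_num)

/-! ### the value -/

/-- the box and the value -/
theorem val_sound {N : ℕ} {wt : Wt} (hwt : WtP wt) {d : Sd} (hN : 1 ≤ N)
    (hKD : d.K + wt.D = 16 * N) (hJ : d.J0 ≤ 31) {R : ℝ} (hRp : 0 < R) (hw0 : (wt.R0 : ℝ) / 1024 ≤ R)
    (hw1 : R ≤ (wt.R1 : ℝ) / 1024) {u : Fin N → ℂ} (hu : ∀ k, ‖u k‖ ≤ 1)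
    (hom : ∑ k, om R (u k) ≤ (d.K : ℝ) / 16)
    (g1 : mr d.lp d.ln ≤ (muR ((d.K : ℝ) / 16) R u).re)
    (g2 : (muR ((d.K : ℝ) / 16) R u).re ≤ mr d.mp d.mn)
    (g3 : (d.s0 : ℝ) / 1099511627776 ≤ (muR ((d.K : ℝ) / 16) R u).im)
    (g4 : (muR ((d.K : ℝ) / 16) R u).im ≤ (d.s1 : ℝ) / 1099511627776)
    (g5 : 1 - ‖muR ((d.K : ℝ) / 16) R u‖ ^ 2 ≤ (d.c1 : ℝ) / 1099511627776)
    (h : (colK d.K 32 d.mp d.mn d.lp d.ln 31 fun col =>
      leafK d.s0 d.s1 d.c1 d.phi d.J0 (31 - d.J0) d.t0 d.st1 d.st2 col fun P N1 N2 =>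
        valOK N wt.D d.c.v d.K d.lp d.ln wt.SS wt.WW d.J0 P N1 N2) = true) :
    (d.c.v : ℝ) / 2 ^ 24 ≤ ((N : ℝ) + 1) * ‖∫ x in (0 : ℝ)..1, qq u x‖ := by
  obtain ⟨s, W, hSS, hWW, hs1, hW1, hwt⟩ := hwt
  have hguard := h
  unfold colK at hguard
  rw [bi_and, bi_and] at hguard
  obtain ⟨-, hln, -⟩ := hguard
  rw [Nat.ble_eq] at hln
  obtain ⟨hK16, -, col, hcol, hleaf⟩ := colK_sound h
  have hKr : (1 : ℝ) ≤ (d.K : ℝ) / 16 := by
    have : (16 : ℝ) ≤ d.K := by exact_mod_cast hK16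
    linarith
  obtain ⟨K, hKe⟩ : ∃ K : ℝ, K = (d.K : ℝ) / 16 := ⟨_, rfl⟩
  have hKn := hKe
  rw [← hKe] at hom g1 g2 g3 g4 g5 hKr hcol
  have hNK : (N : ℝ) - K = wt.D / 16 := by
    have : ((d.K + wt.D : ℕ) : ℝ) = ((16 * N : ℕ) : ℝ) := by rw [hKD]
    push_cast at this
    rw [hKe]
    linarith
  have hRD : 16 * (((N : ℝ) - K) / R) * R = wt.D := by
    rw [mul_assoc, div_mul_cancel₀ _ hRp.ne', hNK]
    ring
  obtain ⟨hR1, hws, hwW⟩ := hwt R (((N : ℝ) - K) / R) hw0 hw1 hRD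
  have hK0 : 0 < K := by linarith
  have hrep := sweepR hK0 hN hR1 hu hom
  obtain ⟨μ, hμ⟩ : ∃ μ, μ = muR K R u := ⟨_, rfl⟩
  rw [← hμ] at g1 g2 g3 g4 g5 hrep
  have hμ1 : |μ.re| ≤ 1 := (Complex.abs_re_le_norm _).trans hrep.m_le
  have hcol' := hcol μ.re hμ1 g1 g2
  obtain ⟨p, n₁, n₂, hp, hn, hv⟩ := leafK_sound (by norm_num) hKr hrep g3 g4 g5 hcol' hleaf
  obtain ⟨J1, hJ1⟩ : ∃ J1, J1 = 31 - d.J0 := ⟨_, rfl⟩
  have hJJ : d.J0 + J1 = 31 := by omega
  have hs41 : ∀ j < 31, s j < 2 ^ 41 := fun j hj => lt_of_le_of_lt (hs1 j hj) (by norm_num)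
  have hW41 : ∀ j < 32, W j < 2 ^ 41 := fun j hj => lt_of_le_of_lt (hW1 j hj) (by norm_num)
  have eA : dotK (CurveK.hp p d.J0) wt.SS d.J0 = ∑ j ∈ Finset.range d.J0, p j * s j := by
    rw [hSS]
    exact dotK_eq hJ hJ (fun j hj => lt_trans (hp j hj).1 (by norm_num))
      (fun j hj => hs41 j (by omega))
  have eB : dotK (CurveK.hp n₁ J1) (wt.WW >>> (128 * d.J0)) J1 =
      ∑ j ∈ Finset.range J1, n₁ j * W (d.J0 + j) := by
    rw [hWW, show 32 = d.J0 + (J1 + 1) by omega, wp_shift (fun j hj => hW41 j (by omega))]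
    exact dotK_eq (by omega) (by omega)
      (fun j hj => lt_trans (hn j (by omega)).1 (by norm_num)) (fun j hj => hW41 _ (by omega))
  have eC0 : dotK (CurveK.hp n₂ J1) (wt.WW >>> (128 * d.J0)) J1 =
      ∑ j ∈ Finset.range J1, n₂ j * W (d.J0 + j) := by
    rw [hWW, show 32 = d.J0 + (J1 + 1) by omega, wp_shift (fun j hj => hW41 j (by omega))]
    exact dotK_eq (by omega) (by omega)
      (fun j hj => lt_trans (hn j (by omega)).2.1 (by norm_num)) (fun j hj => hW41 _ (by omega))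
  have eC1 : dotK (CurveK.hp n₂ J1) (wt.WW >>> (128 * (d.J0 + 1))) J1 =
      ∑ j ∈ Finset.range J1, n₂ j * W (d.J0 + 1 + j) := by
    rw [hWW, show 32 = d.J0 + 1 + J1 by omega, wp_shift (fun j hj => hW41 j (by omega))]
    exact dotK_eq (by omega) (by omega)
      (fun j hj => lt_trans (hn j (by omega)).2.1 (by norm_num)) (fun j hj => hW41 _ (by omega))
  have eW : wt.WW >>> 3968 = W 31 := by
    rw [hWW, show (3968 : ℕ) = 128 * 31 by norm_num, show 32 = 31 + 1 by norm_num,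
      wp_shift (fun j hj => hW41 j (by omega))]
    simp [wp]
  rw [← hJ1] at hv hn
  unfold valOK at hv
  rw [← hJ1] at hv
  simp only [ev_eq] at hv
  rw [eA, eB, eC0, eC1, eW, Nat.ble_eq] at hv
  -- the weights of the right ends
  obtain ⟨Wr, hWr⟩ : ∃ Wr : ℕ → ℕ, Wr = fun i => bif Nat.ble 16 wt.D then W (i + 1) else W i :=
    ⟨_, rfl⟩
  have eC : (bif Nat.ble 16 wt.D then ∑ j ∈ Finset.range J1, n₂ j * W (d.J0 + 1 + j) else
      ∑ j ∈ Finset.range J1, n₂ j * W (d.J0 + j)) =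
      ∑ j ∈ Finset.range J1, n₂ j * Wr (d.J0 + j) := by
    rw [hWr]
    cases Nat.ble 16 wt.D with
    | true =>
      simp only [cond_true]
      refine Finset.sum_congr rfl fun j _ => ?_
      rw [show d.J0 + 1 + j = d.J0 + j + 1 by omega]
    | false => simp only [cond_false]
  rw [eC] at hv
  have hT0 : 0 ≤ ((N : ℝ) - K) / R := by rw [hNK]; positivity
  have hml : |mr d.lp d.ln| ≤ 1 := by
    have h3 := abs_le.1 hμ1
    rw [abs_le]
    refine ⟨?_, g1.trans h3.2⟩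
    unfold mr
    rw [le_div_iff₀ (by norm_num)]
    have : (d.ln : ℝ) ≤ ((d.lp + 1099511627776 : ℕ) : ℝ) := by exact_mod_cast hln
    push_cast at this
    linarith
  have hE : ∀ a : ℕ, GK K μ.re ((a : ℝ) / ((32 : ℕ) : ℝ)) ≤
      (nodeE d.K d.lp d.ln a 32 : ℝ) / 1099511627776 := by
    intro a
    have h3 := nodeE_ge (K := d.K) (a := a) (b := 32) (by omega) (by norm_num) hml g1
    rw [← hKn, EK_rpow (H11.gg_nonneg' hμ1)] at h3
    exact h3
  have e31 : xn 31 = ((31 : ℕ) : ℝ) / ((32 : ℕ) : ℝ) := by unfold xn; norm_num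
  have ecast : ∀ j : ℕ, (j : ℝ) / ((32 : ℕ) : ℝ) = xn j := by
    intro j
    unfold xn
    norm_num
  have H : CombH (qq u) (QR K R u) R (((N : ℝ) - K) / R) (((N : ℝ) - K) / R) K μ.re
      ((d.phi : ℝ) / 1099511627776) d.J0 J1 (fun j => (p j : ℝ) / ((32 : ℕ) * 1099511627776))
      (fun j => (s j : ℝ) / 1099511627776) (fun j => (n₁ j : ℝ) / ((32 : ℕ) * 1099511627776))
      (fun j => (n₂ j : ℝ) / ((32 : ℕ) * 1099511627776)) (fun j => (W j : ℝ) / 1099511627776)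
      (fun j => (Wr j : ℝ) / 1099511627776)
      ((nodeE d.K d.lp d.ln 31 32 : ℝ) / 1099511627776)
      ((nodeE d.K d.lp d.ln 32 32 : ℝ) / 1099511627776) :=
    { hR := hR1
      hK := hKr
      hμ := hμ1
      hT0 := hT0
      hT := le_rfl
      hq := qq_continuous' u
      hQ := fun x _ _ => qq_eq_Wf hRp.ne' x
      hJ := hJJ
      hp := fun j hj => by
        have h3 := (hp j hj).2
        rw [ecast, ecast] at h3
        exact h3
      hp0 := fun j _ => by positivity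
      hs := fun j hj => hws j (by omega)
      hn := fun j hj => by
        have h3 := (hn j hj).2.2
        rw [ecast, ecast] at h3
        exact h3
      hWa := fun j hj => hwW _ (by omega)
      hWb := fun j hj => by
        rw [hWr]
        cases hb : Nat.ble 16 wt.D with
        | true =>
          left
          rw [Nat.ble_eq] at hb
          have hb' : (16 : ℝ) ≤ wt.D := by exact_mod_cast hb
          refine ⟨?_, ?_⟩
          · rw [div_mul_cancel₀ _ hRp.ne', hNK]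
            linarith
          · simp only [cond_true]
            exact hwW _ (by omega)
        | false =>
          right
          simp only [cond_false]
          exact hwW _ (by omega)
      hlast := fun x h3 h4 => RepR_norm_GK hrep ((H11.xn_nonneg 31).trans h3) h4
      hEL := by rw [e31]; exact hE 31
      hE0 := by
        have h3 := hE 32
        rwa [show ((32 : ℕ) : ℝ) / ((32 : ℕ) : ℝ) = 1 by norm_num] at h3 }
  have hcu := comb_unit H
  rw [sub_self, zero_mul, neg_zero, Real.exp_zero, one_mul, ← hr_int (qq_continuous' u)] at hcu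
  have hfin := hcu.trans (Complex.re_le_norm _)
  rw [norm_mul, Complex.norm_exp_ofReal_mul_I, one_mul] at hfin
  have hN0 : (0 : ℝ) ≤ (N : ℝ) + 1 := by positivity
  refine le_trans ?_ (mul_le_mul_of_nonneg_left hfin hN0)
  unfold unitS
  obtain ⟨A, hA⟩ : ∃ A : ℕ, A = ∑ j ∈ Finset.range d.J0, p j * s j := ⟨_, rfl⟩
  obtain ⟨B, hB⟩ : ∃ B : ℕ, B = ∑ j ∈ Finset.range J1, n₁ j * W (d.J0 + j) := ⟨_, rfl⟩
  obtain ⟨C, hC⟩ : ∃ C : ℕ, C = ∑ j ∈ Finset.range J1, n₂ j * Wr (d.J0 + j) := ⟨_, rfl⟩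
  have rA : ∑ j ∈ Finset.range d.J0, (p j : ℝ) / ((32 : ℕ) * 1099511627776) *
      ((s j : ℝ) / 1099511627776) = (A : ℝ) / 38685626227668133590597632 := by
    rw [hA]
    push_cast
    rw [Finset.sum_div]
    refine Finset.sum_congr rfl fun j _ => ?_
    rw [div_mul_div_comm]
    norm_num
  have rB : ∑ j ∈ Finset.range J1, ((n₁ j : ℝ) / ((32 : ℕ) * 1099511627776) *
      ((W (d.J0 + j) : ℝ) / 1099511627776) + (n₂ j : ℝ) / ((32 : ℕ) * 1099511627776) *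
      ((Wr (d.J0 + j) : ℝ) / 1099511627776)) = ((B : ℝ) + C) / 38685626227668133590597632 := by
    rw [hB, hC]
    push_cast
    rw [← Finset.sum_add_distrib, Finset.sum_div]
    refine Finset.sum_congr rfl fun j _ => ?_
    rw [div_mul_div_comm, div_mul_div_comm, ← add_div]
    norm_num
  simp only at rA rB ⊢
  rw [rA, rB]
  rw [← hA, ← hB, ← hC] at hv
  generalize nodeE d.K d.lp d.ln 31 32 = x1 at hv ⊢
  generalize nodeE d.K d.lp d.ln 32 32 = x0 at hv ⊢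
  obtain ⟨Y, hY⟩ : ∃ Y, Y = (x1 + x0) * W 31 := ⟨_, rfl⟩
  rw [← hY] at hv
  obtain ⟨Z, hZ⟩ : ∃ Z, Z = (Y + 1) / 2 := ⟨_, rfl⟩
  rw [← hZ] at hv
  have hYZ : (Y : ℝ) ≤ 2 * Z := by
    have : Y ≤ 2 * Z := by omega
    exact_mod_cast this
  have hv' : (d.c.v : ℝ) * 2305843009213693952 + (N + 1) * (B + C + Z) ≤ (N + 1) * A := by
    exact_mod_cast hv
  have rY : ((x1 : ℝ) / 1099511627776 + (x0 : ℝ) / 1099511627776) / 64 *
      ((W 31 : ℝ) / 1099511627776) = (Y : ℝ) / 2 / 38685626227668133590597632 := by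
    rw [hY]
    push_cast
    ring
  rw [rY]
  have h5 : ((N : ℝ) + 1) * ((A : ℝ) / 38685626227668133590597632 -
      ((B : ℝ) + C) / 38685626227668133590597632 - (Y : ℝ) / 2 / 38685626227668133590597632) =
      (((N : ℝ) + 1) * (A - (B + C) - Y / 2)) / 38685626227668133590597632 := by ring
  rw [h5, le_div_iff₀ (by norm_num)]
  have h6 : ((N : ℝ) + 1) * (Y / 2) ≤ (N + 1) * Z :=
    mul_le_mul_of_nonneg_left (by linarith) hN0
  have e7 : (d.c.v : ℝ) / 2 ^ 24 * 38685626227668133590597632 =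
      d.c.v * 2305843009213693952 := by ring
  rw [e7]
  linarith

/-- **soundness of a claim** -/
theorem swOK_sound {N : ℕ} {wt : Wt} {d : Sd} (hwt : WtP wt) (h : swOK N wt d = true) :
    SwpP N d.c := by
  unfold swOK at h
  rw [Bool.and_eq_true, Bool.and_eq_true, Bool.and_eq_true, Bool.and_eq_true, Bool.and_eq_true,
    Bool.and_eq_true, Bool.and_eq_true] at h
  obtain ⟨c1, c2, c3, c4, c5, c6, c7, c8⟩ := h
  replace c1 : d.K + wt.D = 16 * N := Nat.eq_of_beq_eq_true c1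
  rw [Nat.ble_eq] at c2 c3 c4 c5
  intro z w R σ hC r γ hm hγ hγ2 hr0 hr1 hg0 hg1 hR0 hR1
  have hw0 : (wt.R0 : ℝ) / 1024 ≤ R := by
    refine le_trans ?_ hR0
    have : (wt.R0 : ℝ) ≤ d.c.R0 := by exact_mod_cast c2
    linarith
  have hw1 : R ≤ (wt.R1 : ℝ) / 1024 := by
    refine hR1.trans ?_
    have : (d.c.R1 : ℝ) ≤ wt.R1 := by exact_mod_cast c3
    linarith
  have hRp := hC.hR
  have hN : 1 ≤ N := by linarith [hC.hN]
  have hu : ∀ k, ‖uu w k‖ ≤ 1 := fun k => hC.u_le k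
  have hK16 := (colK_sound c8).1
  obtain ⟨K, hKe⟩ : ∃ K : ℝ, K = (d.K : ℝ) / 16 := ⟨_, rfl⟩
  have hNK : (N : ℝ) - K = wt.D / 16 := by
    have : ((d.K + wt.D : ℕ) : ℝ) = ((16 * N : ℕ) : ℝ) := by rw [c1]
    push_cast at this
    rw [hKe]
    linarith
  have hRD : 16 * (((N : ℝ) - K) / R) * R = wt.D := by
    rw [mul_assoc, div_mul_cancel₀ _ hRp.ne', hNK]
    ring
  obtain ⟨s₀, W₀, -, -, -, -, hwt'⟩ := id hwt
  have hR : 1 < R := (hwt' R (((N : ℝ) - K) / R) hw0 hw1 hRD).1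
  have hrp : 0 ≤ r := le_trans (div_nonneg (Nat.cast_nonneg _) (by norm_num)) hr0
  have hr' : r ≤ 1 := by
    have h3 := hC.av_le
    rwa [hm, norm_mul, Complex.norm_exp_ofReal_mul_I, mul_one, Complex.norm_real,
      Real.norm_of_nonneg hrp] at h3
  have hh1 : d.c.h1 ≤ 201 := by
    unfold geoOK at c6
    rw [Bool.and_eq_true, Nat.ble_eq] at c6
    exact c6.1
  have hom := cost_sound c1 c7 hh1 hC hm hγ hγ2 hr0 hr1 hg0 hg1 hR hR0
  have hKr : (0 : ℝ) < d.K := by exact_mod_cast (show 0 < d.K by omega)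
  -- the components of `μ`
  obtain ⟨μ, hμ⟩ : ∃ μ, μ = muR ((d.K : ℝ) / 16) R (uu w) := ⟨_, rfl⟩
  have hK0 : ((K : ℝ) : ℂ) ≠ 0 := by
    rw [hKe]
    exact_mod_cast (div_pos hKr (by norm_num)).ne'
  have hμK : μ * (K : ℂ) = (N : ℂ) * ((r : ℂ) * Complex.exp ((γ : ℂ) * Complex.I)) -
      (((N - K) / R : ℝ) : ℂ) := by
    rw [hμ, ← hKe, muR, div_mul_cancel₀ _ hK0, hm]
  have hre : μ.re * K = N * (r * Real.cos γ) - (N - K) / R := by
    have h3 := congrArg Complex.re hμK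
    rw [Complex.re_mul_ofReal, Complex.sub_re, Complex.ofReal_re, ← Complex.ofReal_natCast,
      Complex.re_ofReal_mul, Complex.re_ofReal_mul, Complex.exp_ofReal_mul_I_re] at h3
    exact h3
  have him : μ.im * K = N * (r * Real.sin γ) := by
    have h3 := congrArg Complex.im hμK
    rw [Complex.im_mul_ofReal, Complex.sub_im, Complex.ofReal_im, ← Complex.ofReal_natCast,
      Complex.im_ofReal_mul, Complex.im_ofReal_mul, Complex.exp_ofReal_mul_I_im, sub_zero] at h3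
    exact h3
  have hd : (d.K : ℝ) = 16 * K := by rw [hKe]; ring
  have e1 : μ.re * d.K = 16 * N * (r * Real.cos γ) - wt.D / R := by
    have h4 : (wt.D : ℝ) / R = 16 * ((N - K) / R) := by
      rw [hNK]
      ring
    rw [h4, hd]
    calc μ.re * (16 * K) = 16 * (μ.re * K) := by ring
      _ = _ := by rw [hre]; ring
  have e2 : μ.im * d.K = 16 * N * (r * Real.sin γ) := by
    rw [hd]
    calc μ.im * (16 * K) = 16 * (μ.im * K) := by ring
      _ = _ := by rw [him]; ring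
  have hR0p : 0 < d.c.R0 := by
    rcases Nat.eq_zero_or_pos d.c.R0 with h0 | h0
    · exfalso
      have hw0' : wt.R0 = 0 := by omega
      have := (hwt' 1 (wt.D / 16) (by rw [hw0']; norm_num) (by
        have h5 : (R : ℝ) ≤ (wt.R1 : ℝ) / 1024 := hw1
        linarith) (by ring)).1
      exact absurd this (lt_irrefl _)
    · exact h0
  obtain ⟨g1, g2, g3, g4, g5⟩ := geo_sound c6 hR0p hR0 hR1 hr' hr0 hr1 hg0 hg1 e1 e2
  have g5' : 1 - ‖μ‖ ^ 2 ≤ (d.c1 : ℝ) / 1099511627776 := by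
    rw [← Complex.normSq_eq_norm_sq, Complex.normSq_apply]
    rw [pow_two, pow_two] at g5
    exact g5
  rw [hμ] at g1 g2 g3 g4 g5'
  exact val_sound hwt hN c1 c5 hRp hw0 hw1 hu hom g1 g2 g3 g4 g5' c8

end Pool.Agent.Lib.MP_af3a4a_an.P1.CHK.SWP
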