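import Pool.Agent.Lib.MP_af3a4a_an.P1.CHK.BOX.Fast2
import Pool.Agent.Lib.MP_af3a4a_an.P1.CHK.CurveK.Defs

/-!
# Sweep claims (kinds 5 and 6 of the box layer): definitions (council 2, helper62)

A claim bounds `(N+1) |∫_0^1 q|` from below on a box of `(r, γ, R)`, by the curve with the real
exponent `K/16` (CurveK, `Q = 32`) and the weights `(1 - x/R)^(D/16)`, `D = 16 N - K`.
-/

set_option autoImplicit false

namespace Pool.Agent.Lib.MP_af3a4a_an.P1.CHK.SWP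

open Pool.Agent.Lib.MP_af3a4a_an.P1.CHK.Arith (ev)
open Pool.Agent.Lib.MP_af3a4a_an.P1.CHK.BOX
open Pool.Agent.Lib.MP_af3a4a_an.P1.CHK.CurveK (colK leafK nodeE dotK)

/-! ### weight tables -/

/-- The weights for `R0/1024 ≤ R ≤ R1/1024` and the exponent `D/16`, packed in base `2^128`:
`s_j ≤ 2^40 ((1 - x_j/R0)(1 - x_(j+1)/R0))^(D/32)` in `SS` (`j < 31`),
`W_j ≥ 2^40 (1 - x_j/R1)^(D/16)` in `WW` (`j < 32`), `x_j = j/32`. -/
structure Wt where
  D : ℕ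
  R0 : ℕ
  R1 : ℕ
  SS : ℕ
  WW : ℕ

/-- the lower weights, from the node `j` on -/
noncomputable def wtS (D R0 : ℕ) (n : ℕ) : ℕ → ℕ → Bool :=
  Nat.rec (fun _ S => Nat.beq S 0)
    (fun _ ih j S =>
      an (Nat.ble (Nat.mod S 340282366920938463463374607431768211456) 1099511627776)
        (an (Nat.ble (Nat.mul (Nat.pow (Nat.mod S 340282366920938463463374607431768211456) 32)
            (Nat.pow (Nat.mul R0 R0) D))
          (Nat.mul (Nat.pow 2 1280) (Nat.pow (Nat.mul (Nat.sub R0 (Nat.mul 32 j))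
            (Nat.sub R0 (Nat.mul 32 (Nat.add j 1)))) D)))
          (ih (Nat.add j 1) (Nat.div S 340282366920938463463374607431768211456)))) n

/-- the upper weights, from the node `j` on -/
noncomputable def wtW (D R1 : ℕ) (n : ℕ) : ℕ → ℕ → Bool :=
  Nat.rec (fun _ S => Nat.beq S 0)
    (fun _ ih j S =>
      an (Nat.ble (Nat.mod S 340282366920938463463374607431768211456) 1099511627777)
        (an (Nat.ble (Nat.mul (Nat.pow 2 640) (Nat.pow (Nat.sub R1 (Nat.mul 32 j)) D))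
          (Nat.mul (Nat.pow (Nat.mod S 340282366920938463463374607431768211456) 16)
            (Nat.pow R1 D)))
          (ih (Nat.add j 1) (Nat.div S 340282366920938463463374607431768211456)))) n

/-- the check of a weight table -/
noncomputable def wtOK (w : Wt) : Bool :=
  an (Nat.ble 1025 w.R0) (an (Nat.ble w.R0 w.R1) (an (wtS w.D w.R0 31 0 w.SS)
    (wtW w.D w.R1 32 0 w.WW)))

/-! ### claims -/

/-- A claim: `v/2^24 ≤ (N+1) |∫_0^1 q|` on the box. -/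
structure Sc where
  r0 : ℕ
  r1 : ℕ
  h0 : ℕ
  h1 : ℕ
  R0 : ℕ
  R1 : ℕ
  v : ℕ

/-- A claim with its data: weight table, `16 K`, box of `μ` in `2^-40`, direction, cells, streams. -/
structure Sd where
  c : Sc
  K : ℕ
  lp : ℕ
  ln : ℕ
  mp : ℕ
  mn : ℕ
  s0 : ℕ
  s1 : ℕ
  c1 : ℕ
  phi : ℕ
  J0 : ℕ
  t0 : ℕ
  st1 : ℕ
  st2 : ℕ

/-- the box of `μ` contains all `μ = (N m - (D/16)/R)/(K/16)` -/
def geoOK (N D K r0 r1 h0 h1 R0 R1 lp ln mp mn s0 s1 c1 : ℕ) : Bool :=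
  Nat.ble h1 201 && (Nat.ble 1 K &&
  (Nat.ble (K * lp * R0 + D * 1125899906842624 + 16 * N * lnF r0 r1 h1 * R0)
    (16 * N * lpF r0 r1 h1 * R0 + K * ln * R0) &&
  (Nat.ble (16 * N * mpF r0 r1 h0 * R1 + K * mn * R1)
    (16 * N * mnF r0 r1 h0 * R1 + K * mp * R1 + D * 1125899906842624) &&
  (Nat.ble (s0 * K) (16 * N * s0F r0 h0 h1) &&
  (Nat.ble (16 * N * s1F r1 h0 h1) (s1 * K) &&
  (Nat.ble 1208925819614629174706176
      (c1 * 1099511627776 + s0 * s0 + (lp - ln) * (lp - ln) + (mn - mp) * (mn - mp)) ||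
    Nat.ble (1099511627776 * K * K * R0 * R1 * R1 + 32768 * N * D * mpF r0 r1 h0 * R1 * R1)
      (c1 * K * K * R0 * R1 * R1 + 16777216 * N * N * r0 * r0 * R0 * R1 * R1 +
        1152921504606846976 * D * D * R0)))))))

/-- `∑ om ≤ K/16` -/
def costOK (N D K r0 r1 h0 R0 : ℕ) : Bool :=
  Nat.beq D 0 || (Nat.ble 1946 R0 &&
    Nat.ble (900719925474099200 * N * (R0 - 1024) + 819200 * N * R0 * mpF r0 r1 h0 +
        16 * N * (R0 * R0 - 1048576) * 1099511627776)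
      (50 * K * (R0 * R0 - 1048576) * 1099511627776))

/-- the value of the claim -/
noncomputable def valOK (N D v K lp ln SS WW J0 P N1 N2 : ℕ) : Bool :=
  ev (dotK P SS J0) fun a => ev (dotK N1 (WW >>> (128 * J0)) (31 - J0)) fun b =>
    ev (bif Nat.ble 16 D then dotK N2 (WW >>> (128 * (J0 + 1))) (31 - J0)
      else dotK N2 (WW >>> (128 * J0)) (31 - J0)) fun c =>
    Nat.ble (v * 2305843009213693952 + (N + 1) * (b + c +
      ((nodeE K lp ln 31 32 + nodeE K lp ln 32 32) * (WW >>> 3968) + 1) / 2)) ((N + 1) * a)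

/-- the check of a claim -/
noncomputable def swOK (N : ℕ) (w : Wt) (d : Sd) : Bool :=
  Nat.beq (d.K + w.D) (16 * N) && (Nat.ble w.R0 d.c.R0 && (Nat.ble d.c.R1 w.R1 &&
  (Nat.ble d.c.R0 d.c.R1 && (Nat.ble d.J0 31 &&
  (geoOK N w.D d.K d.c.r0 d.c.r1 d.c.h0 d.c.h1 d.c.R0 d.c.R1 d.lp d.ln d.mp d.mn d.s0 d.s1 d.c1 &&
  (costOK N w.D d.K d.c.r0 d.c.r1 d.c.h0 d.c.R0 &&
  colK d.K 32 d.mp d.mn d.lp d.ln 31 fun col =>
    leafK d.s0 d.s1 d.c1 d.phi d.J0 (31 - d.J0) d.t0 d.st1 d.st2 col fun P N1 N2 =>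
      valOK N w.D d.c.v d.K d.lp d.ln w.SS w.WW d.J0 P N1 N2))))))

end Pool.Agent.Lib.MP_af3a4a_an.P1.CHK.SWP
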