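import Pool.Agent.Lib.MP_af3a4a_an.P1.CHK.SWP.Claim
import Pool.Agent.Lib.MP_af3a4a_an.P1.CHK.BOX.Data

/-!
# Sweep claims: the items of kinds 5 and 6 and the chunks (council 2, helper62)

Kind 5 = kind 0 and kind 6 = kind 4, on the ray (`th = 256`), with the value of a claim at `x = 1`
(`js = Q`) in place of the value of a curve; `iCrv` = index in the list `Z` of the claims.
-/

set_option autoImplicit false

namespace Pool.Agent.Lib.MP_af3a4a_an.P1.CHK.SWP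

open MeasureTheory intervalIntegral ComplexConjugate
open Pool.Agent.Lib.MP_af3a4a_an.SV (uu av sq EE)
open Pool.Agent.Lib.MP_af3a4a_an.P1.H80
open Pool.Agent.Lib.MP_af3a4a_an.P1.CHK.H80
open Pool.Agent.Lib.MP_af3a4a_an.P1.CHK.BOX
open Pool.Agent.Lib.MP_af3a4a_an.P1.CHK.H28 (itAx itAx_sound xAx xAx_ok)

/-- the value from a claim, with the tail subtracted -/
noncomputable def getZ (Tl : ℕ → ℕ → ℕ → ℕ → ℕ → ℕ → ℕ → ℕ) (Q : ℕ) (Z : List Sc)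
    (r0 r1 g0 g1 R0 R1 it : ℕ) : ℕ :=
  Sc.rec (fun c0 c1 h0 h1 S0 S1 v =>
    ite' (an (Nat.beq (iTh it) 256) (an (Nat.beq (iJs it) Q) (an (Nat.ble Q (iJe it))
      (an (Nat.ble c0 r0) (an (Nat.ble r1 c1) (an (Nat.ble h0 g0) (an (Nat.ble g1 h1)
        (an (Nat.ble S0 R0) (an (Nat.ble R1 S1) (Nat.ble v 4294967295))))))))))
      (ite' (Nat.beq (iJe it) Q) v (Nat.sub v (Tl r0 r1 g0 g1 R0 R1 it))) 0)
    (pick ⟨0, 0, 0, 0, 0, 0, 0⟩ Z (iCrv it))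

theorem dflt_swp (N : ℕ) : SwpP N ⟨0, 0, 0, 0, 0, 0, 0⟩ := by
  intro z w R σ _ r γ _ _ _ _ _ _ _ _ _
  rw [Nat.cast_zero, zero_div]
  positivity

theorem dirn_256 : dirn 256 = 1 := by
  unfold dirn
  norm_num

theorem getZ_sound {Tl : ℕ → ℕ → ℕ → ℕ → ℕ → ℕ → ℕ → ℕ} {N Q : ℕ} {Z : List Sc} (hQ : 0 < Q)
    (hTl : TlP N N Q Tl) (hZ : ∀ c ∈ Z, SwpP N c) {r0 r1 g0 g1 R0 R1 it : ℕ}
    {z w : Fin N → ℂ} {R : ℝ} {σ : Fin N → ℂ} (hC : Cfg2 N z w R σ) {r γ : ℝ}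
    (hB : InBox w R r γ r0 r1 g0 g1 R0 R1) :
    ((getZ Tl Q Z r0 r1 g0 g1 R0 R1 it : ℕ) : ℝ) / 2 ^ 24 ≤ val w (iTh it) Q (iJe it) := by
  obtain ⟨hm, hr, hγ, hγ2, hRr, h1, h2, h3, h4, h5, h6⟩ := id hB
  unfold getZ
  have hcl := pick_mem (P := SwpP N) (dflt_swp N) hZ (iCrv it)
  obtain ⟨c, hc⟩ : ∃ c, c = pick (⟨0, 0, 0, 0, 0, 0, 0⟩ : Sc) Z (iCrv it) := ⟨_, rfl⟩
  rw [← hc] at hcl ⊢
  obtain ⟨c0, c1, e0, e1, S0, S1, v⟩ := c
  show ((ite' _ (ite' (Nat.beq (iJe it) Q) v (Nat.sub v (Tl r0 r1 g0 g1 R0 R1 it))) 0 : ℕ) : ℝ) /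
    2 ^ 24 ≤ _
  rw [ite_eq', ite_eq']
  simp only [an_eq]
  cases hb : (Nat.beq (iTh it) 256 && (Nat.beq (iJs it) Q && (Nat.ble Q (iJe it) &&
      (Nat.ble c0 r0 && (Nat.ble r1 c1 && (Nat.ble e0 g0 && (Nat.ble g1 e1 &&
        (Nat.ble S0 R0 && (Nat.ble R1 S1 && Nat.ble v 4294967295))))))))) with
  | false =>
    rw [cond_false, Nat.cast_zero, zero_div]
    exact val_nonneg _ _ _
  | true =>
    rw [cond_true]
    simp only [Bool.and_eq_true, Nat.ble_eq] at hb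
    obtain ⟨b1, b2, b3, b4, b5, b6, b7, b8, b9, b10⟩ := hb
    replace b1 := Nat.eq_of_beq_eq_true b1
    replace b2 := Nat.eq_of_beq_eq_true b2
    have b4' : (c0 : ℝ) ≤ r0 := by exact_mod_cast b4
    have b5' : (r1 : ℝ) ≤ c1 := by exact_mod_cast b5
    have b6' : (e0 : ℝ) ≤ g0 := by exact_mod_cast b6
    have b7' : (g1 : ℝ) ≤ e1 := by exact_mod_cast b7
    have b8' : (S0 : ℝ) ≤ R0 := by exact_mod_cast b8
    have b9' : (R1 : ℝ) ≤ S1 := by exact_mod_cast b9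
    have key : (v : ℝ) / 2 ^ 24 ≤ val w (iTh it) Q (iJs it) := by
      have hk := hcl z w R σ hC r γ hm hγ hγ2 (by simp only; linarith) (by simp only; linarith)
        (by simp only; linarith) (by simp only; linarith) (by simp only; linarith)
        (by simp only; linarith)
      unfold val
      rw [b1, b2, dirn_256]
      have hQr : (Q : ℝ) ≠ 0 := by exact_mod_cast hQ.ne'
      have e : ru w 1 = uu w := by
        funext k
        unfold ru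
        rw [one_mul]
      rw [e, div_self hQr]
      exact hk
    cases hb2 : Nat.beq (iJe it) Q with
    | true =>
      rw [cond_true]
      have h7 : iJe it = iJs it := (Nat.eq_of_beq_eq_true hb2).trans b2.symm
      rw [h7]
      exact key
    | false =>
      rw [cond_false]
      by_cases hT : Tl r0 r1 g0 g1 R0 R1 it < 4294967296
      · exact sub_tail (by omega) key
          (hTl r0 r1 g0 g1 R0 R1 it N le_rfl le_rfl z w R σ hC r γ hB hT)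
      · have h8 : Nat.sub v (Tl r0 r1 g0 g1 R0 R1 it) = 0 := by
          rw [Nat.sub_eq]
          omega
        rw [h8, Nat.cast_zero, zero_div]
        exact val_nonneg _ _ _

/-- the further kinds of items: 4, 5, 6 -/
noncomputable def xZ (Tl : ℕ → ℕ → ℕ → ℕ → ℕ → ℕ → ℕ → ℕ) (Na Nb Q : ℕ) (Z : List Sc)
    (G it r0 r1 g0 g1 R0 R1 : ℕ) : Bool :=
  (fun k =>
    ite' (Nat.beq k 5) (an (Nat.beq Na Nb)
      (it0S Na Nb Q (iJe it) (iTh it) (iOm it) (iA it) (iL it) (iN it) g0 g1 r0 r1 R0 R1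
        (getZ Tl Q Z r0 r1 g0 g1 R0 R1 it)))
    (ite' (Nat.beq k 6) (an (Nat.beq Na Nb)
      (itAx Na Nb Q (iJe it) (iTh it) (iOm it) (iOmB it) (iA it) g0 g1 r0 r1 R0 R1
        (getZ Tl Q Z r0 r1 g0 g1 R0 R1 it)))
    (xAx Na Nb Q G it r0 r1 g0 g1 R0 R1))) (Nat.mod it 16)

theorem xZ_ok {Tl : ℕ → ℕ → ℕ → ℕ → ℕ → ℕ → ℕ → ℕ} {Na Nb Q : ℕ} {Z : List Sc} (hNa0 : 1 ≤ Na)
    (hQ : 0 < Q) (hTl : TlP Na Nb Q Tl) (hZ : ∀ c ∈ Z, SwpP Na c) :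
    XP (fun G it r0 r1 g0 g1 R0 R1 => xZ Tl Na Nb Q Z G it r0 r1 g0 g1 R0 R1) Na Nb Q := by
  intro G it r0 r1 g0 g1 R0 R1 h N hNa hNb z w R σ hC r γ hB hG
  obtain ⟨hm, hr, hγ, hγ2, hRr, h1, h2, h3, h4, h5, h6⟩ := id hB
  have hg : g0 ≤ g1 := by
    have : (g0 : ℝ) ≤ g1 := by linarith
    exact_mod_cast this
  have h' : ite' (Nat.beq (Nat.mod it 16) 5) (an (Nat.beq Na Nb)
      (it0S Na Nb Q (iJe it) (iTh it) (iOm it) (iA it) (iL it) (iN it) g0 g1 r0 r1 R0 R1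
        (getZ Tl Q Z r0 r1 g0 g1 R0 R1 it)))
    (ite' (Nat.beq (Nat.mod it 16) 6) (an (Nat.beq Na Nb)
      (itAx Na Nb Q (iJe it) (iTh it) (iOm it) (iOmB it) (iA it) g0 g1 r0 r1 R0 R1
        (getZ Tl Q Z r0 r1 g0 g1 R0 R1 it)))
    (xAx Na Nb Q G it r0 r1 g0 g1 R0 R1)) = true := h
  rw [ite_eq', ite_eq'] at h'
  cases hb5 : Nat.beq (Nat.mod it 16) 5 with
  | true =>
    rw [hb5, cond_true, an_eq, Bool.and_eq_true] at h'
    obtain ⟨hNN, hit⟩ := h'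
    replace hNN := Nat.eq_of_beq_eq_true hNN
    subst hNN
    have hNe : N = Na := by omega
    subst hNe
    exact it0_sound hNa0 le_rfl le_rfl hQ hg hC hm h1 h2 h3 h4 h5 h6
      (getZ_sound hQ hTl hZ hC hB) (it0S_imp hit)
  | false =>
    rw [hb5, cond_false] at h'
    cases hb6 : Nat.beq (Nat.mod it 16) 6 with
    | true =>
      rw [hb6, cond_true, an_eq, Bool.and_eq_true] at h'
      obtain ⟨hNN, hit⟩ := h'
      replace hNN := Nat.eq_of_beq_eq_true hNN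
      subst hNN
      have hNe : N = Na := by omega
      subst hNe
      exact itAx_sound hNa0 le_rfl le_rfl hQ hg hC hm h1 h2 h3 h4 h5 h6
        (getZ_sound hQ hTl hZ hC hB) hit
    | false =>
      rw [hb6, cond_false] at h'
      exact xAx_ok hNa0 hQ G it r0 r1 g0 g1 R0 R1 h' N hNa hNb z w R σ hC r γ hB hG

/-- the check of a chunk with claims -/
noncomputable def chkZ (Na Nb Q : ℕ) (C : List Crv) (Z : List Sc) (T : List Fam)
    (r0 r1 g0 g1 R0 R1 : ℕ) (t : Tree) : Bool :=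
  an (Nat.ble 1 Na) (an (Nat.ble 1 Q)
    (chunkS (fun G it r0 r1 g0 g1 R0 R1 =>
        xZ (fun r0 r1 g0 g1 R0 R1 it => tlR Na Nb Q T r0 r1 g0 g1 R0 R1 it) Na Nb Q Z
          G it r0 r1 g0 g1 R0 R1)
      (fun r0 r1 g0 g1 R0 R1 it => tlR Na Nb Q T r0 r1 g0 g1 R0 R1 it) Na Nb Q C
      r0 r1 g0 g1 R0 R1 t))

/-- **soundness of a chunk with claims** -/
theorem chkZ_sound {Na Nb Q : ℕ} {C : List Crv} {Z : List Sc} {T : List Fam}
    {r0 r1 g0 g1 R0 R1 : ℕ} {t : Tree} (hCr : ∀ c ∈ C, CrvP Na Nb Q c) (hZ : ∀ c ∈ Z, SwpP Na c)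
    (hT : ∀ f ∈ T, FamP Q f) (h : chkZ Na Nb Q C Z T r0 r1 g0 g1 R0 R1 t = true) :
    ChunkP Na Nb r0 r1 g0 g1 R0 R1 := by
  unfold chkZ at h
  rw [an_eq, an_eq, Bool.and_eq_true, Bool.and_eq_true, Nat.ble_eq, Nat.ble_eq] at h
  obtain ⟨h1, h2, h3⟩ := h
  have hTl : TlP Na Nb Q (fun r0 r1 g0 g1 R0 R1 it => tlR Na Nb Q T r0 r1 g0 g1 R0 R1 it) := by
    simp only [tlR_eq]
    exact tlF_sound hT
  exact chunkS_sound h1 h2 (xZ_ok h1 h2 hTl hZ) hTl hCr h3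

end Pool.Agent.Lib.MP_af3a4a_an.P1.CHK.SWP
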