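import Pool.Agent.Lib.MP_af3a4a_an.P1.CHK.SWP.Item
import Pool.Agent.Lib.MP_af3a4a_an.P1.H74.Phi

/-!
# Items on the ray with the payment for the zero `0` (kinds 7 and 8, council 2, helper88)

Kind 7 (value of a curve) and kind 8 (value of a claim): `phi_ray` of helper74 with `pay > 0`, on the
ray (`th = 256`), `y = j/Q ≤ R`, `R - y ≤ kap a`.
-/

set_option autoImplicit false

namespace Pool.Agent.Lib.MP_af3a4a_an.P1.CHK.SWP

open MeasureTheory intervalIntegral ComplexConjugate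
open Pool.Agent.Lib.MP_af3a4a_an.SV (uu av sq EE)
open Pool.Agent.Lib.MP_af3a4a_an.P1.H80
open Pool.Agent.Lib.MP_af3a4a_an.P1.CHK.H80
open Pool.Agent.Lib.MP_af3a4a_an.P1.CHK.Arith
open Pool.Agent.Lib.MP_af3a4a_an.P1.CHK.BOX
open Pool.Agent.Lib.MP_af3a4a_an.P1.CHK.H28 (xK xL xK_le kap_le lam_le log_ge cz_low axLog axX0
  X0_ok phiX phiX_sound)
open Pool.Agent.Lib.MP_af3a4a_an.P1.H74 (Free pay phi_ray)

/-- upper bound of the payment times `2^24` -/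
def payU (Q j A kL lL : ℕ) : ℕ :=
  Nat.sub (Nat.succ (Nat.div (Nat.mul (Nat.mul (Nat.mul A j) (Nat.sub 512 A)) 32768)
    (Nat.mul Q (Nat.add 512 A)))) (Nat.sub kL (Nat.add lL 3))

/-- the item on the ray with payment -/
def itP (Na Nb Q j A g0 g1 r0 r1 R0 R1 G : ℕ) : Bool :=
  ev (xK A) fun kL => ev (xL A) fun lL =>
  Nat.ble 1 A && (Nat.ble A 255 && (Nat.ble 1 j &&
  (Nat.ble (Nat.mul j 1024) (Nat.mul R0 Q) &&
  (Nat.ble (Nat.mul (Nat.sub (Nat.mul R1 Q) (Nat.mul 1024 j)) 16384) (Nat.mul kL Q) &&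
  (axLog Na A (axX0 A j Q kL lL) &&
    phiX Na Nb A Q j (cz 256 256) (cz 256 256) (cz 512 512) (Nat.add g0 256) (Nat.add g1 256)
      r0 r1 kL (Nat.add kL 3)
      (Nat.add (Nat.add lL 3) (Nat.succ (Nat.div (payU Q j A kL lL) Na))) G)))))

theorem pay_le {Q j A : ℕ} (hQ : 0 < Q) (c1 : 1 ≤ A) (c2 : A ≤ 255) :
    pay ((A : ℝ) / 512) 1 ((j : ℝ) / Q) ≤ (payU Q j A (xK A) (xL A) : ℝ) / 2 ^ 24 := by
  have hQr : (0 : ℝ) < Q := by exact_mod_cast hQ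
  have hA1 : (1 : ℝ) ≤ A := by exact_mod_cast c1
  have hA255 : (A : ℝ) ≤ 255 := by exact_mod_cast c2
  have b5 := log_ge c1 c2
  have hl0 : 0 ≤ Real.log (1 + (A : ℝ) / 512) := Real.log_nonneg (by
    have : (0 : ℝ) ≤ A / 512 := by positivity
    linarith)
  obtain ⟨s, hs⟩ : ∃ s, s = Nat.sub (xK A) (Nat.add (xL A) 3) := ⟨_, rfl⟩
  obtain ⟨t, ht⟩ : ∃ t, t = Nat.div (Nat.mul (Nat.mul (Nat.mul A j) (Nat.sub 512 A)) 32768)
    (Nat.mul Q (Nat.add 512 A)) := ⟨_, rfl⟩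
  have hsl : (s : ℝ) / 2 ^ 24 ≤ Real.log (1 + A / 512) := by
    rw [div_le_iff₀ (by positivity)]
    rw [div_le_iff₀ (by positivity)] at b5
    have hs' : s = xK A - (xL A + 3) := hs
    rcases Nat.le_total (xL A + 3) (xK A) with hh | hh
    · rw [hs', Nat.cast_sub hh]
      push_cast
      linarith
    · rw [hs', Nat.sub_eq_zero_of_le hh, Nat.cast_zero]
      positivity
  have htl : (A : ℝ) / 512 / (1 + A / 512) * ((j : ℝ) / Q * (1 - A / 512 * 1)) ≤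
      ((t : ℝ) + 1) / 2 ^ 24 := by
    have e0 : t = (A * j * (512 - A) * 32768) / (Q * (512 + A)) := by rw [ht]; rfl
    have h1 : ((A * j * (512 - A) * 32768 : ℕ) : ℝ) <
        (((A * j * (512 - A) * 32768) / (Q * (512 + A)) : ℕ) + 1 : ℝ) *
          ((Q * (512 + A) : ℕ) : ℝ) := by
      have hp : 0 < Q * (512 + A) := by positivity
      have h2 := Nat.lt_mul_of_div_lt
        (Nat.lt_succ_self ((A * j * (512 - A) * 32768) / (Q * (512 + A)))) hp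
      have h3 : ((A * j * (512 - A) * 32768 : ℕ) : ℝ) <
        ((Nat.succ ((A * j * (512 - A) * 32768) / (Q * (512 + A))) *
          (Q * (512 + A)) : ℕ) : ℝ) := by exact_mod_cast h2
      push_cast at h3 ⊢
      exact h3
    rw [← e0] at h1
    have h512 : ((512 - A : ℕ) : ℝ) = 512 - A := by
      rw [Nat.cast_sub (by omega)]
      norm_num
    push_cast [h512] at h1
    have e1 : (A : ℝ) / 512 / (1 + A / 512) * ((j : ℝ) / Q * (1 - A / 512 * 1)) =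
        ((A : ℝ) * j * (512 - A) * 32768) / (Q * (512 + A)) / 2 ^ 24 := by
      field_simp
      ring
    rw [e1]
    apply div_le_div_of_nonneg_right _ (by positivity)
    rw [div_le_iff₀ (by positivity)]
    exact h1.le
  have hP : payU Q j A (xK A) (xL A) = t + 1 - s := by
    unfold payU
    rw [← hs, ← ht]
    rfl
  have hP' : (t : ℝ) + 1 - s ≤ (payU Q j A (xK A) (xL A) : ℝ) := by
    rw [hP]
    rcases Nat.le_total s (t + 1) with hh | hh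
    · rw [Nat.cast_sub hh]
      push_cast
      linarith
    · have : ((t + 1 : ℕ) : ℝ) ≤ s := by exact_mod_cast hh
      push_cast at this
      rw [Nat.sub_eq_zero_of_le hh, Nat.cast_zero]
      linarith
  unfold pay
  apply max_le
  · have h3 := div_le_div_of_nonneg_right hP' (show (0 : ℝ) ≤ 2 ^ 24 by positivity)
    have h4 : ((t : ℝ) + 1 - s) / 2 ^ 24 = ((t : ℝ) + 1) / 2 ^ 24 - (s : ℝ) / 2 ^ 24 := by ring
    rw [h4] at h3
    linarith
  · positivity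

section sound

variable {N : ℕ} {z w : Fin N → ℂ} {R : ℝ} {σ : Fin N → ℂ}

theorem itP_sound {Na Nb Q j A g0 g1 r0 r1 R0 R1 G : ℕ} (hNa0 : 1 ≤ Na) (hNa : Na ≤ N)
    (hNb : N ≤ Nb) (hQ : 0 < Q) (hg : g0 ≤ g1) (hC : Cfg2 N z w R σ) {r γ : ℝ}
    (hm : av (uu w) = (r : ℂ) * Complex.exp ((γ : ℂ) * Complex.I))
    (hr0 : (r0 : ℝ) / 4096 ≤ r) (hr1 : r ≤ (r1 : ℝ) / 4096)
    (hγ0 : (g0 : ℝ) / 64 ≤ γ) (hγ1 : γ ≤ (g1 : ℝ) / 64)
    (hR0 : (R0 : ℝ) / 1024 ≤ R) (hR1 : R ≤ (R1 : ℝ) / 1024)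
    (hG : (G : ℝ) / 2 ^ 24 ≤ val w 256 Q j)
    (h : itP Na Nb Q j A g0 g1 r0 r1 R0 R1 G = true) : False := by
  unfold itP at h
  simp only [ev_eq, Bool.and_eq_true, Nat.ble_eq, Nat.add_eq, Nat.mul_eq, Nat.sub_eq,
    Nat.succ_eq_add_one] at h
  obtain ⟨c1, c2, c3, c4, c5, c6, c7⟩ := h
  have hQr : (0 : ℝ) < Q := by exact_mod_cast hQ
  have hjr : (0 : ℝ) < j := by exact_mod_cast c3
  have hx0 : (0 : ℝ) < (j : ℝ) / Q := by positivity
  have hA1 : (1 : ℝ) ≤ A := by exact_mod_cast c1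
  have hA255 : (A : ℝ) ≤ 255 := by exact_mod_cast c2
  have ha0 : 0 ≤ (A : ℝ) / 512 := by positivity
  have ha1 : (A : ℝ) / 512 < 1 := by rw [div_lt_one (by norm_num)]; linarith
  have hNar : (Na : ℝ) ≤ N := by exact_mod_cast hNa
  have hNa1 : (1 : ℝ) ≤ Na := by exact_mod_cast hNa0
  have hNap : (0 : ℝ) < Na := by linarith
  obtain ⟨x1, x2, x3, x4, x5⟩ := X0_ok c1 c2 c3 hQ hNa0 hNa rfl c6
  have b1 := xK_le c1 c2
  have b2 := kap_le c1 c2
  have b4 := lam_le c1 c2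
  obtain ⟨l1, l2⟩ := cz_low (show ad 256 256 ≤ 201 by decide)
  obtain ⟨l5, l6⟩ := cz_low (show ad 512 512 ≤ 201 by decide)
  rw [show (((256 : ℕ) : ℝ) - (256 : ℕ)) / 64 = 0 by norm_num, Real.cos_zero] at l2
  rw [show (((512 : ℕ) : ℝ) - (512 : ℕ)) / 64 = 0 by norm_num, Real.cos_zero] at l6
  have hpay := pay_le (j := j) hQ c1 c2
  have hpay0 : 0 ≤ pay ((A : ℝ) / 512) 1 ((j : ℝ) / Q) := by
    unfold pay
    exact le_max_right _ _
  obtain ⟨P, hP⟩ : ∃ P, P = pay ((A : ℝ) / 512) 1 ((j : ℝ) / Q) := ⟨_, rfl⟩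
  obtain ⟨U, hU⟩ : ∃ U, U = payU Q j A (xK A) (xL A) := ⟨_, rfl⟩
  rw [← hU] at hpay c7
  rw [← hP] at hpay hpay0
  have hPN : P / Na ≤ (((Nat.div U Na : ℕ) : ℝ) + 1) / 2 ^ 24 := by
    have h2 : (U : ℝ) < ((U / Na : ℕ) + 1 : ℝ) * Na := by
      have h2 := Nat.lt_mul_of_div_lt (Nat.lt_succ_self (U / Na)) (show 0 < Na by omega)
      have h3 : (U : ℝ) < ((Nat.succ (U / Na) * Na : ℕ) : ℝ) := by exact_mod_cast h2
      push_cast at h3 ⊢
      exact h3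
    rw [div_le_div_iff₀ hNap (by positivity)]
    rw [le_div_iff₀ (by positivity)] at hpay
    exact hpay.trans h2.le
  have hphi := phiX_sound (x := γ) (cθ := 1) (cω := 1) (cs := 1) (κ := kap ((A : ℝ) / 512))
    (Λ := -Real.log (1 - ((A : ℝ) / 512) ^ 2) / 2 + P / Na)
    hNa hNb hQ c3 (by omega) hr0 hr1 (by push_cast; linarith) (by push_cast; linarith)
    l1 l5 (by linarith) (by linarith) (by linarith) b1 (by push_cast; exact b2)
    (by
      push_cast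
      have e1 : ((xL A : ℝ) + 3 + (((Nat.div U Na : ℕ) : ℝ) + 1)) / 2 ^ 24 =
        ((xL A : ℝ) + 3) / 2 ^ 24 + (((Nat.div U Na : ℕ) : ℝ) + 1) / 2 ^ 24 := by ring
      rw [e1]
      linarith) c7
  obtain ⟨hGp, hphi⟩ := hphi
  have hGp' : (0 : ℝ) < G := by exact_mod_cast hGp
  have hG0 : (0 : ℝ) < N + 1 := by positivity
  have hyR : (j : ℝ) / Q ≤ R := by
    refine le_trans ?_ hR0
    rw [div_le_div_iff₀ hQr (by norm_num)]
    exact_mod_cast c4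
  have htk : R - (j : ℝ) / Q ≤ kap ((A : ℝ) / 512) := by
    refine le_trans ?_ b1
    have h1 : ((R1 : ℝ) * Q - 1024 * j) * 16384 ≤ xK A * Q := by
      have h2 : (((R1 * Q - 1024 * j : ℕ) : ℝ)) * 16384 ≤ xK A * Q := by exact_mod_cast c5
      have h3 : (R1 : ℝ) * Q - 1024 * j ≤ ((R1 * Q - 1024 * j : ℕ) : ℝ) := by
        rcases Nat.le_total (1024 * j) (R1 * Q) with hh | hh
        · rw [Nat.cast_sub hh]
          push_cast
          exact le_rfl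
        · have : ((R1 * Q : ℕ) : ℝ) ≤ ((1024 * j : ℕ) : ℝ) := by exact_mod_cast hh
          push_cast at this
          rw [Nat.sub_eq_zero_of_le hh, Nat.cast_zero]
          linarith
      linarith
    have h4 : R - (j : ℝ) / Q ≤ (R1 : ℝ) / 1024 - (j : ℝ) / Q := by linarith
    refine h4.trans ?_
    rw [div_sub_div _ _ (by norm_num) hQr.ne', div_le_div_iff₀ (by positivity) (by positivity)]
    linarith
  have hF : Free N ((A : ℝ) / 512) 0 1 ((j : ℝ) / Q)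
      ((axX0 A j Q (xK A) (xL A) : ℝ) / 1024) := by
    refine ⟨ha0, ha1, by norm_num, x1, x2, ?_, ?_, ?_⟩
    · have e1 : (A : ℝ) / 512 / (1 + A / 512) * ((j : ℝ) / Q * (1 + A / 512 * 1)) =
        A / 512 * ((j : ℝ) / Q) := by field_simp
      rw [e1]
      exact x3
    · rw [sub_zero, one_mul]
      exact x4
    · rw [sub_zero, one_mul]
      exact x5
  have hre : (av (uu w)).re = r * Real.cos γ := by
    rw [hm, Complex.re_ofReal_mul, Complex.exp_ofReal_mul_I_re]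
  refine phi_ray hC hx0 hyR hF htk (G := (G : ℝ) / 2 ^ 24 / (N + 1)) (by positivity) ?_ ?_
  · rw [div_le_iff₀ hG0, mul_comm]
    unfold val at hG
    rw [dirn_256] at hG
    have e : ru w 1 = uu w := by
      funext k
      unfold ru
      rw [one_mul]
    rw [e] at hG
    exact hG
  · have e5 : ((N : ℝ) + 1) * ((G : ℝ) / 2 ^ 24 / (N + 1)) / ((j : ℝ) / Q) =
        (G : ℝ) / 2 ^ 24 / ((j : ℝ) / Q) := by
      field_simp
    rw [e5, hre, ← hP]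
    have h6 : P ≤ N * (P / Na) := by
      rw [← mul_div_assoc, le_div_iff₀ hNap, mul_comm]
      exact mul_le_mul_of_nonneg_right hNar hpay0
    linarith

end sound

/-- the further kinds of items: 4, 5, 6, 7, 8 -/
noncomputable def xY (Tl : ℕ → ℕ → ℕ → ℕ → ℕ → ℕ → ℕ → ℕ) (Na Nb Q : ℕ) (Z : List Sc)
    (G it r0 r1 g0 g1 R0 R1 : ℕ) : Bool :=
  (fun k =>
    ite' (Nat.beq k 8) (an (Nat.beq Na Nb)
      (an (Nat.beq (iTh it) 256) (itP Na Nb Q (iJe it) (iA it) g0 g1 r0 r1 R0 R1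
        (getZ Tl Q Z r0 r1 g0 g1 R0 R1 it))))
    (ite' (Nat.beq k 7)
      (an (Nat.beq (iTh it) 256) (itP Na Nb Q (iJe it) (iA it) g0 g1 r0 r1 R0 R1 G))
    (xZ Tl Na Nb Q Z G it r0 r1 g0 g1 R0 R1))) (Nat.mod it 16)

theorem xY_ok {Tl : ℕ → ℕ → ℕ → ℕ → ℕ → ℕ → ℕ → ℕ} {Na Nb Q : ℕ} {Z : List Sc} (hNa0 : 1 ≤ Na)
    (hQ : 0 < Q) (hTl : TlP Na Nb Q Tl) (hZ : ∀ c ∈ Z, SwpP Na c) :
    XP (fun G it r0 r1 g0 g1 R0 R1 => xY Tl Na Nb Q Z G it r0 r1 g0 g1 R0 R1) Na Nb Q := by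
  intro G it r0 r1 g0 g1 R0 R1 h N hNa hNb z w R σ hC r γ hB hG
  obtain ⟨hm, hr, hγ, hγ2, hRr, h1, h2, h3, h4, h5, h6⟩ := id hB
  have hg : g0 ≤ g1 := by
    have : (g0 : ℝ) ≤ g1 := by linarith
    exact_mod_cast this
  have h' : ite' (Nat.beq (Nat.mod it 16) 8) (an (Nat.beq Na Nb)
      (an (Nat.beq (iTh it) 256) (itP Na Nb Q (iJe it) (iA it) g0 g1 r0 r1 R0 R1
        (getZ Tl Q Z r0 r1 g0 g1 R0 R1 it))))
    (ite' (Nat.beq (Nat.mod it 16) 7)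
      (an (Nat.beq (iTh it) 256) (itP Na Nb Q (iJe it) (iA it) g0 g1 r0 r1 R0 R1 G))
    (xZ Tl Na Nb Q Z G it r0 r1 g0 g1 R0 R1)) = true := h
  rw [ite_eq', ite_eq'] at h'
  cases hb8 : Nat.beq (Nat.mod it 16) 8 with
  | true =>
    rw [hb8, cond_true, an_eq, an_eq, Bool.and_eq_true, Bool.and_eq_true] at h'
    obtain ⟨hNN, hth, hit⟩ := h'
    replace hNN := Nat.eq_of_beq_eq_true hNN
    replace hth := Nat.eq_of_beq_eq_true hth
    subst hNN
    have hNe : N = Na := by omega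
    subst hNe
    have hv := getZ_sound (it := it) hQ hTl hZ hC hB
    rw [hth] at hv
    exact itP_sound hNa0 le_rfl le_rfl hQ hg hC hm h1 h2 h3 h4 h5 h6 hv hit
  | false =>
    rw [hb8, cond_false] at h'
    cases hb7 : Nat.beq (Nat.mod it 16) 7 with
    | true =>
      rw [hb7, cond_true, an_eq, Bool.and_eq_true] at h'
      obtain ⟨hth, hit⟩ := h'
      replace hth := Nat.eq_of_beq_eq_true hth
      rw [hth] at hG
      exact itP_sound hNa0 hNa hNb hQ hg hC hm h1 h2 h3 h4 h5 h6 hG hit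
    | false =>
      rw [hb7, cond_false] at h'
      exact xZ_ok hNa0 hQ hTl hZ G it r0 r1 g0 g1 R0 R1 h' N hNa hNb z w R σ hC r γ hB hG

/-- the check of a chunk with claims and payments -/
noncomputable def chkY (Na Nb Q : ℕ) (C : List Crv) (Z : List Sc) (T : List Fam)
    (r0 r1 g0 g1 R0 R1 : ℕ) (t : Tree) : Bool :=
  an (Nat.ble 1 Na) (an (Nat.ble 1 Q)
    (chunkS (fun G it r0 r1 g0 g1 R0 R1 =>
        xY (fun r0 r1 g0 g1 R0 R1 it => tlR Na Nb Q T r0 r1 g0 g1 R0 R1 it) Na Nb Q Z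
          G it r0 r1 g0 g1 R0 R1)
      (fun r0 r1 g0 g1 R0 R1 it => tlR Na Nb Q T r0 r1 g0 g1 R0 R1 it) Na Nb Q C
      r0 r1 g0 g1 R0 R1 t))

/-- **soundness of a chunk with claims and payments** -/
theorem chkY_sound {Na Nb Q : ℕ} {C : List Crv} {Z : List Sc} {T : List Fam}
    {r0 r1 g0 g1 R0 R1 : ℕ} {t : Tree} (hCr : ∀ c ∈ C, CrvP Na Nb Q c) (hZ : ∀ c ∈ Z, SwpP Na c)
    (hT : ∀ f ∈ T, FamP Q f) (h : chkY Na Nb Q C Z T r0 r1 g0 g1 R0 R1 t = true) :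
    ChunkP Na Nb r0 r1 g0 g1 R0 R1 := by
  unfold chkY at h
  rw [an_eq, an_eq, Bool.and_eq_true, Bool.and_eq_true, Nat.ble_eq, Nat.ble_eq] at h
  obtain ⟨h1, h2, h3⟩ := h
  have hTl : TlP Na Nb Q (fun r0 r1 g0 g1 R0 R1 it => tlR Na Nb Q T r0 r1 g0 g1 R0 R1 it) := by
    simp only [tlR_eq]
    exact tlF_sound hT
  exact chunkS_sound h1 h2 (xY_ok h1 h2 hTl hZ) hTl hCr h3

end Pool.Agent.Lib.MP_af3a4a_an.P1.CHK.SWP
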