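import Pool.Agent.Lib.MP_af3a4a_an.P1.CHK.SWP.Defs
import Pool.Agent.Lib.MP_af3a4a_an.P1.CHK.CurveK.Kron
import Pool.Agent.Lib.MP_af3a4a_an.P1.H11.Comb

/-!
# Sweep claims: the weight tables (council 2, helper62)
-/

set_option autoImplicit false

namespace Pool.Agent.Lib.MP_af3a4a_an.P1.CHK.SWP

open Pool.Agent.Lib.MP_af3a4a_an.P1.CHK.BOX
open Pool.Agent.Lib.MP_af3a4a_an.P1.CHK.CurveK (wp wp_add)
open Pool.Agent.Lib.MP_af3a4a_an.P1.H11 (el Wf xn one_sub_pos)

/-- put a number in front of a sequence -/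
def cns (a : ℕ) (s : ℕ → ℕ) : ℕ → ℕ
  | 0 => a
  | i + 1 => s i

theorem wp_cns (a : ℕ) (s : ℕ → ℕ) (n : ℕ) : wp (cns a s) (n + 1) = a + 2 ^ 128 * wp s n := by
  rw [Nat.add_comm n 1, wp_add]
  have e : (fun i => cns a s (1 + i)) = s := by
    funext i
    rw [Nat.add_comm]
    rfl
  rw [e, pow_one]
  simp [wp, cns]

theorem wtS_sound (D R0 : ℕ) : ∀ n j S : ℕ, wtS D R0 n j S = true → ∃ s : ℕ → ℕ, S = wp s n ∧
    ∀ i < n, s i ≤ 1099511627776 ∧ (s i) ^ 32 * (R0 * R0) ^ D ≤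
      2 ^ 1280 * ((R0 - 32 * (j + i)) * (R0 - 32 * (j + i + 1))) ^ D := by
  intro n
  induction n with
  | zero =>
    intro j S h
    have h0 : Nat.beq S 0 = true := h
    refine ⟨fun _ => 0, ?_, fun i hi => absurd hi (Nat.not_lt_zero i)⟩
    rw [Nat.eq_of_beq_eq_true h0]
    rfl
  | succ n ih =>
    intro j S h
    have h0 : an (Nat.ble (Nat.mod S 340282366920938463463374607431768211456) 1099511627776)
        (an (Nat.ble (Nat.mul (Nat.pow (Nat.mod S 340282366920938463463374607431768211456) 32)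
            (Nat.pow (Nat.mul R0 R0) D))
          (Nat.mul (Nat.pow 2 1280) (Nat.pow (Nat.mul (Nat.sub R0 (Nat.mul 32 j))
            (Nat.sub R0 (Nat.mul 32 (Nat.add j 1)))) D)))
          (wtS D R0 n (Nat.add j 1) (Nat.div S 340282366920938463463374607431768211456))) =
          true := h
    rw [an_eq, an_eq, Bool.and_eq_true, Bool.and_eq_true, Nat.ble_eq, Nat.ble_eq] at h0
    obtain ⟨h1, h2, h3⟩ := h0
    obtain ⟨s, hs, hs'⟩ := ih _ _ h3
    refine ⟨cns (S % 340282366920938463463374607431768211456) s, ?_, ?_⟩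
    · rw [wp_cns, ← hs]
      have e : (2 : ℕ) ^ 128 = 340282366920938463463374607431768211456 := by norm_num
      rw [e]
      exact (Nat.mod_add_div S _).symm
    · intro i hi
      rcases i with _ | i
      · exact ⟨h1, h2⟩
      · obtain ⟨h4, h5⟩ := hs' i (by omega)
        refine ⟨h4, ?_⟩
        have e1 : j + (i + 1) = Nat.add j 1 + i := by
          show j + (i + 1) = j + 1 + i
          omega
        rw [e1]
        exact h5

theorem wtW_sound (D R1 : ℕ) : ∀ n j S : ℕ, wtW D R1 n j S = true → ∃ s : ℕ → ℕ, S = wp s n ∧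
    ∀ i < n, s i ≤ 1099511627777 ∧ 2 ^ 640 * (R1 - 32 * (j + i)) ^ D ≤ (s i) ^ 16 * R1 ^ D := by
  intro n
  induction n with
  | zero =>
    intro j S h
    have h0 : Nat.beq S 0 = true := h
    refine ⟨fun _ => 0, ?_, fun i hi => absurd hi (Nat.not_lt_zero i)⟩
    rw [Nat.eq_of_beq_eq_true h0]
    rfl
  | succ n ih =>
    intro j S h
    have h0 : an (Nat.ble (Nat.mod S 340282366920938463463374607431768211456) 1099511627777)
        (an (Nat.ble (Nat.mul (Nat.pow 2 640) (Nat.pow (Nat.sub R1 (Nat.mul 32 j)) D))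
          (Nat.mul (Nat.pow (Nat.mod S 340282366920938463463374607431768211456) 16)
            (Nat.pow R1 D)))
          (wtW D R1 n (Nat.add j 1) (Nat.div S 340282366920938463463374607431768211456))) =
          true := h
    rw [an_eq, an_eq, Bool.and_eq_true, Bool.and_eq_true, Nat.ble_eq, Nat.ble_eq] at h0
    obtain ⟨h1, h2, h3⟩ := h0
    obtain ⟨s, hs, hs'⟩ := ih _ _ h3
    refine ⟨cns (S % 340282366920938463463374607431768211456) s, ?_, ?_⟩
    · rw [wp_cns, ← hs]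
      have e : (2 : ℕ) ^ 128 = 340282366920938463463374607431768211456 := by norm_num
      rw [e]
      exact (Nat.mod_add_div S _).symm
    · intro i hi
      rcases i with _ | i
      · exact ⟨h1, h2⟩
      · obtain ⟨h4, h5⟩ := hs' i (by omega)
        refine ⟨h4, ?_⟩
        have e1 : j + (i + 1) = Nat.add j 1 + i := by
          show j + (i + 1) = j + 1 + i
          omega
        rw [e1]
        exact h5

/-- the meaning of a weight table -/
def WtP (w : Wt) : Prop := ∃ s W : ℕ → ℕ, w.SS = wp s 31 ∧ w.WW = wp W 32 ∧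
  (∀ i < 31, s i ≤ 1099511627776) ∧ (∀ i < 32, W i ≤ 1099511627777) ∧
  ∀ R T : ℝ, (w.R0 : ℝ) / 1024 ≤ R → R ≤ (w.R1 : ℝ) / 1024 → 16 * T * R = w.D → 1 < R ∧
    (∀ j < 31, (s j : ℝ) / 1099511627776 ≤
      Real.exp (-(T * ((el R (xn j) + el R (xn (j + 1))) / 2)))) ∧
    (∀ j ≤ 31, Wf R T (xn j) ≤ (W j : ℝ) / 1099511627776)

/-- `(1 - x/R)^D` from the exponential -/
theorem exp_el {R T x : ℝ} {D : ℕ} (hR : 0 < R) (hx : x < R) (hT : 16 * T * R = D) :
    Real.exp (-(16 * T * el R x)) = (1 - x / R) ^ D := by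
  have h1 := one_sub_pos hR hx
  unfold el
  have e : -(16 * T * -(R * Real.log (1 - x / R))) = D * Real.log (1 - x / R) := by
    rw [← hT]
    ring
  rw [e, Real.exp_nat_mul, Real.exp_log h1]

theorem le_of_pow_le' {a b : ℝ} {n : ℕ} (hn : n ≠ 0) (hb : 0 ≤ b) (h : a ^ n ≤ b ^ n) : a ≤ b :=
  le_of_pow_le_pow_left₀ hn hb h

/-- value of `1 - x_j/R` at `R = r/1024` -/
theorem one_sub_node {r j : ℕ} (hr : 0 < r) (h : 32 * j ≤ r) :
    1 - xn j / ((r : ℝ) / 1024) = ((r - 32 * j : ℕ) : ℝ) / r := by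
  have hr' : (r : ℝ) ≠ 0 := by exact_mod_cast hr.ne'
  rw [Nat.cast_sub h]
  unfold xn
  push_cast
  field_simp
  ring

theorem wt_sound {w : Wt} (h : wtOK w = true) : WtP w := by
  unfold wtOK at h
  rw [an_eq, an_eq, an_eq, Bool.and_eq_true, Bool.and_eq_true, Bool.and_eq_true, Nat.ble_eq,
    Nat.ble_eq] at h
  obtain ⟨c1, c2, c3, c4⟩ := h
  obtain ⟨s, hs, hs'⟩ := wtS_sound _ _ _ _ _ c3
  obtain ⟨W, hW, hW'⟩ := wtW_sound _ _ _ _ _ c4
  refine ⟨s, W, hs, hW, fun i hi => (hs' i hi).1, fun i hi => (hW' i hi).1, ?_⟩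
  intro R T hR0 hR1 hT
  have k0 : (1025 : ℝ) ≤ w.R0 := by exact_mod_cast c1
  have k1 : (w.R0 : ℝ) ≤ w.R1 := by exact_mod_cast c2
  have hR : 1 < R := by
    refine lt_of_lt_of_le ?_ hR0
    rw [lt_div_iff₀ (by norm_num)]
    linarith
  have hRp : 0 < R := by linarith
  have hxR : ∀ j ≤ 32, xn j < R := by
    intro j hj
    have : (j : ℝ) ≤ 32 := by exact_mod_cast hj
    unfold xn
    linarith [show (j : ℝ) / 32 ≤ 1 by rw [div_le_one (by norm_num)]; exact this]
  have hx0 : ∀ j : ℕ, 0 ≤ xn j := fun j => H11.xn_nonneg j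
  have hR0p : (0 : ℝ) < (w.R0 : ℝ) / 1024 := by positivity
  have hR1p : (0 : ℝ) < (w.R1 : ℝ) / 1024 := by
    have : (0 : ℝ) < w.R1 := by linarith
    positivity
  refine ⟨hR, ?_, ?_⟩
  · intro j hj
    obtain ⟨-, h2⟩ := hs' j hj
    rw [Nat.zero_add] at h2
    have ha : 1 - xn j / ((w.R0 : ℝ) / 1024) ≤ 1 - xn j / R := by
      have := div_le_div_of_nonneg_left (hx0 j) hR0p hR0
      linarith
    have hb : 1 - xn (j + 1) / ((w.R0 : ℝ) / 1024) ≤ 1 - xn (j + 1) / R := by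
      have := div_le_div_of_nonneg_left (hx0 (j + 1)) hR0p hR0
      linarith
    rw [one_sub_node (by omega) (by omega)] at ha hb
    have ha0 : (0 : ℝ) ≤ ((w.R0 - 32 * j : ℕ) : ℝ) / w.R0 := by positivity
    have hb0 : (0 : ℝ) ≤ ((w.R0 - 32 * (j + 1) : ℕ) : ℝ) / w.R0 := by positivity
    apply le_of_pow_le' (n := 32) (by norm_num) (Real.exp_pos _).le
    have e1 : Real.exp (-(T * ((el R (xn j) + el R (xn (j + 1))) / 2))) ^ 32 =
        ((1 - xn j / R) * (1 - xn (j + 1) / R)) ^ w.D := by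
      rw [← Real.exp_nat_mul, mul_pow, ← exp_el hRp (hxR j (by omega)) hT,
        ← exp_el hRp (hxR (j + 1) (by omega)) hT, ← Real.exp_add]
      congr 1
      push_cast
      ring
    rw [e1]
    refine le_trans ?_ (pow_le_pow_left₀ (mul_nonneg ha0 hb0) (mul_le_mul ha hb hb0
      (ha0.trans ha)) w.D)
    have h3 : ((s j : ℝ)) ^ 32 * ((w.R0 : ℝ) * w.R0) ^ w.D ≤
        2 ^ 1280 * (((w.R0 - 32 * j : ℕ) : ℝ) * ((w.R0 - 32 * (j + 1) : ℕ) : ℝ)) ^ w.D := by
      exact_mod_cast h2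
    have hr : (0 : ℝ) < ((w.R0 : ℝ) * w.R0) ^ w.D := by
      have : (0 : ℝ) < w.R0 := by linarith
      positivity
    rw [div_mul_div_comm, div_pow, div_pow, div_le_div_iff₀ (by positivity) hr]
    have e2 : (1099511627776 : ℝ) ^ 32 = 2 ^ 1280 := by
      rw [show (1099511627776 : ℝ) = 2 ^ 40 by norm_num, ← pow_mul]
    rw [e2]
    linarith
  · intro j hj
    obtain ⟨-, h2⟩ := hW' j (by omega)
    rw [Nat.zero_add] at h2
    have ha : 1 - xn j / R ≤ 1 - xn j / ((w.R1 : ℝ) / 1024) := by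
      have := div_le_div_of_nonneg_left (hx0 j) hRp hR1
      linarith
    rw [one_sub_node (by omega) (by omega)] at ha
    have ha0 : 0 ≤ 1 - xn j / R := (one_sub_pos hRp (hxR j (by omega))).le
    apply le_of_pow_le' (n := 16) (by norm_num) (by positivity)
    have e1 : Wf R T (xn j) ^ 16 = (1 - xn j / R) ^ w.D := by
      unfold Wf
      rw [← Real.exp_nat_mul, ← exp_el hRp (hxR j (by omega)) hT]
      congr 1
      push_cast
      ring
    rw [e1]
    refine (pow_le_pow_left₀ ha0 ha w.D).trans ?_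
    have h3 : (2 : ℝ) ^ 640 * ((w.R1 - 32 * j : ℕ) : ℝ) ^ w.D ≤
        ((W j : ℝ)) ^ 16 * (w.R1 : ℝ) ^ w.D := by exact_mod_cast h2
    have hr : (0 : ℝ) < (w.R1 : ℝ) ^ w.D := by
      have : (0 : ℝ) < w.R1 := by linarith
      positivity
    rw [div_pow, div_pow, div_le_div_iff₀ hr (by positivity)]
    have e2 : (1099511627776 : ℝ) ^ 16 = 2 ^ 640 := by
      rw [show (1099511627776 : ℝ) = 2 ^ 40 by norm_num, ← pow_mul]
    rw [e2]
    linarith

end Pool.Agent.Lib.MP_af3a4a_an.P1.CHK.SWP
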